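import Mathlib
import Pool.Agent.H386R2.Artin.LocalCount
import Pool.Agent.H386R2.Artin.SumH
import Pool.Agent.H386R2.Artin.SumG
import Pool.Agent.H771R4.AQ.Local
import Pool.Agent.H771R4.AQ.MainLim

set_option autoImplicit false

/-! # Local counts for sets of integers -/

namespace Pool.Agent.H771R4.SE

open Finset Filter Topology
open Pool.Agent.H386R2.Artin (PP Good hL gL power_residue incl_excl LC_pos count_L gL_nonneg
  gL_le_one artinL)
open Pool.Agent.H771R4.AQ (Adm card_adm P34 sumG3)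

section
variable {p : ℕ} [hp : Fact p.Prime]

open Classical in
theorem LC_mainI (E : Finset ℕ) (M : ℝ) (m : ℤ) (hE : ∀ q ∈ E, (q : ZMod p) ≠ 0) (hM : 0 ≤ M)
    (hG : Good E M p) (hm : ¬ (p : ℤ) ∣ m) (L : ℕ) :
    |(#(E.filter (fun q : ℕ => orderOf ((m * (q : ℤ) : ℤ) : ZMod p) = p - 1)) : ℝ)
      - #E * gL L (p - 1)| ≤
      1 + 2 ^ L * M + #E * hL L (p - 1) + (p - 1).primeFactors.card * M := by
  have hp1 : 0 < p - 1 := LC_pos
  have hmu : (m : ZMod p) ≠ 0 := by
    rwa [Ne, ZMod.intCast_zmod_eq_zero_iff_dvd]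
  obtain ⟨P, hP⟩ : ∃ P, P = (p - 1).primeFactors.filter (fun l => l ≤ L) := ⟨_, rfl⟩
  obtain ⟨R, hR⟩ : ∃ R, R = (p - 1).primeFactors.filter (fun l => L < l) := ⟨_, rfl⟩
  have hA := count_L E M m hM hG hm L P hP
  set a : ℕ → ZMod p := fun q => ((m * (q : ℤ) : ℤ) : ZMod p) with ha
  set B := E.filter (fun q : ℕ => orderOf (a q) = p - 1) with hB
  set A := E.filter (fun q : ℕ => a q ≠ 0 ∧ ∀ l ∈ P, (a q) ^ ((p - 1) / l) ≠ 1) with hAdef
  set E0 := E.filter (fun q : ℕ => (q : ZMod p) ≠ 0) with hE0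
  have hnorm : ∀ q : ℕ, a q = (m : ZMod p) * (q : ZMod p) := by
    intro q; simp [ha]
  -- B ⊆ A
  have hBA : B ⊆ A := by
    intro q hq
    rw [hB, Finset.mem_filter] at hq
    rw [hAdef, Finset.mem_filter]
    have h0 : a q ≠ 0 := by
      intro h0
      have h1 := hq.2
      have h2 : (a q) ^ (p - 1) = 1 := by rw [← h1]; exact pow_orderOf_eq_one _
      rw [h0, zero_pow hp1.ne'] at h2
      exact zero_ne_one h2
    refine ⟨hq.1, h0, fun l hl h1 => ?_⟩
    rw [hP, Finset.mem_filter] at hl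
    have hlp := Nat.prime_of_mem_primeFactors hl.1
    have hld := Nat.dvd_of_mem_primeFactors hl.1
    have h3 := orderOf_dvd_of_pow_eq_one h1
    rw [hq.2] at h3
    have h4 := Nat.le_of_dvd (Nat.div_pos (Nat.le_of_dvd hp1 hld) hlp.pos) h3
    have h5 : (p - 1) / l < p - 1 := Nat.div_lt_self hp1 hlp.one_lt
    omega
  -- A ⊆ B ∪ ...
  have hAB : A ⊆ B ∪ R.biUnion fun l => E.filter fun q : ℕ => (a q) ^ ((p - 1) / l) = 1 := by
    intro q hq
    rw [hAdef, Finset.mem_filter] at hq
    rw [Finset.mem_union, Finset.mem_biUnion]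
    by_cases h : ∀ l ∈ R, (a q) ^ ((p - 1) / l) ≠ 1
    · left
      rw [hB, Finset.mem_filter]
      refine ⟨hq.1, ?_⟩
      apply orderOf_eq_of_pow_and_pow_div_prime hp1 (ZMod.pow_card_sub_one_eq_one hq.2.1)
      intro l hlp hld
      have hmem : l ∈ (p - 1).primeFactors := Nat.mem_primeFactors.mpr ⟨hlp, hld, hp1.ne'⟩
      rcases le_or_gt l L with hl | hl
      · exact hq.2.2 l (by rw [hP, Finset.mem_filter]; exact ⟨hmem, hl⟩)
      · exact h l (by rw [hR, Finset.mem_filter]; exact ⟨hmem, hl⟩)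
    · right
      push Not at h
      obtain ⟨l, hl, hl1⟩ := h
      exact ⟨l, hl, Finset.mem_filter.mpr ⟨hq.1, hl1⟩⟩
  have h1 : (#B : ℝ) ≤ #A := by exact_mod_cast Finset.card_le_card hBA
  have h2 : (#A : ℝ) ≤ #B + ∑ l ∈ R, ((#E0 : ℝ) / l + M) := by
    have h3 : #A ≤ #B + ∑ l ∈ R, #(E.filter fun q : ℕ => (a q) ^ ((p - 1) / l) = 1) :=
      (Finset.card_le_card hAB).trans ((Finset.card_union_le _ _).trans
        (Nat.add_le_add_left Finset.card_biUnion_le _))
    calc (#A : ℝ) ≤ #B + ∑ l ∈ R, (#(E.filter fun q : ℕ => (a q) ^ ((p - 1) / l) = 1) : ℝ) := by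
          exact_mod_cast h3
      _ ≤ _ := by
          refine add_le_add_right (Finset.sum_le_sum fun l hl => ?_) _
          rw [hR, Finset.mem_filter] at hl
          have h4 := power_residue E M m hM hG hm l (Nat.dvd_of_mem_primeFactors hl.1)
          rw [abs_le] at h4
          have h5 := h4.2
          rw [sub_le_iff_le_add] at h5
          rw [add_comm]
          exact h5
  have hE0le : (#E0 : ℝ) ≤ #E := by exact_mod_cast Finset.card_le_card (Finset.filter_subset _ _)
  have hE0ge : (#E : ℝ) ≤ #E0 + 1 := by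
    have h3 : E ⊆ E0 := by
      intro q hq
      rw [hE0, Finset.mem_filter]
      exact ⟨hq, hE q hq⟩
    have h4 := Finset.card_le_card h3
    have : (#E : ℝ) ≤ #E0 := by exact_mod_cast h4
    linarith
  have hsum : ∑ l ∈ R, ((#E0 : ℝ) / l + M) ≤ #E * hL L (p - 1) + (p - 1).primeFactors.card * M := by
    rw [Finset.sum_add_distrib, Finset.sum_const, nsmul_eq_mul]
    refine add_le_add ?_ ?_
    · unfold hL
      rw [← hR, Finset.mul_sum]
      refine Finset.sum_le_sum fun l _ => ?_
      rw [mul_one_div]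
      exact div_le_div_of_nonneg_right hE0le (by positivity)
    · refine mul_le_mul_of_nonneg_right ?_ hM
      have : R ⊆ (p - 1).primeFactors := by rw [hR]; exact Finset.filter_subset _ _
      exact_mod_cast Finset.card_le_card this
  have hg0 := gL_nonneg L (p - 1)
  have hg1 := gL_le_one L (p - 1)
  rw [abs_le] at hA ⊢
  have h2L : (0 : ℝ) ≤ 2 ^ L * M := by positivity
  have hh : 0 ≤ (#E : ℝ) * hL L (p - 1) := by
    refine mul_nonneg (by positivity) ?_
    unfold hL
    exact Finset.sum_nonneg fun l _ => by positivity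
  have hw : 0 ≤ ((p - 1).primeFactors.card : ℝ) * M := by positivity
  have e1 : (#E0 : ℝ) * gL L (p - 1) ≤ #E * gL L (p - 1) := mul_le_mul_of_nonneg_right hE0le hg0
  have e2 : (#E : ℝ) * gL L (p - 1) ≤ #E0 * gL L (p - 1) + 1 := by
    calc (#E : ℝ) * gL L (p - 1) ≤ (#E0 + 1) * gL L (p - 1) := mul_le_mul_of_nonneg_right hE0ge hg0
      _ ≤ _ := by linarith
  constructor
  · linarith [hA.1]
  · linarith [hA.2]


end

/-- the data of a counting problem: a condition `Q` modulo every prime, local densities `G L p` -/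
structure Datum where
  Q : (p : ℕ) → ZMod p → Prop
  G : ℕ → ℕ → ℝ
  G0 : ∀ L p, 0 ≤ G L p
  G1 : ∀ L p, G L p ≤ 2
  loc : ∀ (p : ℕ), p.Prime → ∀ (E : Finset ℕ) (M : ℝ) (L : ℕ), (∀ q ∈ E, (q : ZMod p) ≠ 0) →
    0 ≤ M → Good E M p →
    |((open Classical in #(E.filter (fun q : ℕ => Q p ((q : ℕ) : ZMod p))) : ℕ) : ℝ) -
      #E * G L p| ≤
      2 * (1 + 2 ^ L * M + #E * hL L (p - 1) + (p - 1).primeFactors.card * M)
  lim : ∀ L, Tendsto (fun x : ℕ => (∑ p ∈ PP x, G L p) / (Nat.primeCounting x : ℝ)) atTop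
    (𝓝 (artinL L))

lemma err_nonneg (p : ℕ) (E : Finset ℕ) (M : ℝ) (L : ℕ) (hM : 0 ≤ M) :
    0 ≤ 1 + 2 ^ L * M + (#E : ℝ) * hL L (p - 1) + ((p - 1).primeFactors.card : ℝ) * M := by
  have hh0 : 0 ≤ hL L (p - 1) := Finset.sum_nonneg fun l _ => by positivity
  positivity

/-- Artin's conjecture -/
noncomputable def artin : Datum where
  Q := fun p a => orderOf a = p - 1
  G := fun L p => gL L (p - 1)
  G0 := fun L p => gL_nonneg L (p - 1)
  G1 := fun L p => (gL_le_one L (p - 1)).trans (by norm_num)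
  loc := by
    classical
    intro p hp E M L hE hM hG
    have : Fact p.Prime := ⟨hp⟩
    have h := LC_mainI E M 1 hE hM hG (by
      intro h
      have h1 : (p : ℤ) ≤ 1 := Int.le_of_dvd one_pos h
      have := hp.two_le
      omega) L
    have h2 : (E.filter (fun q : ℕ => orderOf ((1 * (q : ℤ) : ℤ) : ZMod p) = p - 1)) =
        (E.filter (fun q : ℕ => orderOf ((q : ℕ) : ZMod p) = p - 1)) := by
      apply filter_congr
      intro q _
      simp
    rw [h2] at h
    have h3 := err_nonneg p E M L hM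
    refine le_trans (le_of_eq ?_) (h.trans (by linarith))
    congr!
  lim := Pool.Agent.H386R2.Artin.sumG

/-- primes congruent to 3 modulo 4, order `p - 1` or `(p - 1) / 2` -/
noncomputable def adm : Datum where
  Q := fun p a => p % 4 = 3 ∧ Adm p a
  G := fun L p => if p % 4 = 3 then 2 * gL L (p - 1) else 0
  G0 := fun L p => by
    split_ifs
    · have := gL_nonneg L (p - 1)
      positivity
    · exact le_rfl
  G1 := fun L p => by
    split_ifs
    · have := gL_le_one L (p - 1)
      linarith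
    · norm_num
  loc := by
    classical
    intro p hp E M L hE hM hG
    have : Fact p.Prime := ⟨hp⟩
    have h9 := err_nonneg p E M L hM
    suffices key : |((#(E.filter (fun q : ℕ => p % 4 = 3 ∧ Adm p ((q : ℕ) : ZMod p))) : ℕ) : ℝ) -
        #E * (if p % 4 = 3 then 2 * gL L (p - 1) else 0)| ≤
        2 * (1 + 2 ^ L * M + #E * hL L (p - 1) + (p - 1).primeFactors.card * M) by
      refine le_trans (le_of_eq ?_) key
      congr!
    by_cases h4 : p % 4 = 3
    · have hone : ∀ m : ℤ, (m = 1 ∨ m = -1) → ¬ (p : ℤ) ∣ m := by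
        intro m hm h
        have h0 : (p : ℤ) ∣ 1 := by
          rcases hm with rfl | rfl
          · exact h
          · rwa [dvd_neg] at h
        have h1 : (p : ℤ) ≤ 1 := Int.le_of_dvd one_pos h0
        have := hp.two_le
        omega
      have h1 := LC_mainI E M 1 hE hM hG (hone 1 (Or.inl rfl)) L
      have h2 := LC_mainI E M (-1) hE hM hG (hone (-1) (Or.inr rfl)) L
      have e1 : (E.filter (fun q : ℕ => orderOf ((1 * (q : ℤ) : ℤ) : ZMod p) = p - 1)) =
          (E.filter (fun q : ℕ => orderOf ((q : ℕ) : ZMod p) = p - 1)) := by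
        apply filter_congr
        intro q _
        simp
      have e2 : (E.filter (fun q : ℕ => orderOf (((-1) * (q : ℤ) : ℤ) : ZMod p) = p - 1)) =
          (E.filter (fun q : ℕ => orderOf (-((q : ℕ) : ZMod p)) = p - 1)) := by
        apply filter_congr
        intro q _
        simp
      rw [e1] at h1
      rw [e2] at h2
      have h3 := card_adm h4 E (fun q : ℕ => ((q : ℕ) : ZMod p))
      have h6 : ((#(E.filter (fun q : ℕ => p % 4 = 3 ∧ Adm p ((q : ℕ) : ZMod p))) : ℕ) : ℝ) =
          ((#(E.filter (fun q : ℕ => orderOf ((q : ℕ) : ZMod p) = p - 1)) : ℕ) : ℝ) +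
          ((#(E.filter (fun q : ℕ => orderOf (-((q : ℕ) : ZMod p)) = p - 1)) : ℕ) : ℝ) := by
        have h3' := congrArg (fun n : ℕ => (n : ℝ)) h3
        simp only [Nat.cast_add] at h3'
        rw [← h3']
        congr 2
        apply filter_congr
        intro q _
        simp [h4]
      rw [if_pos h4]
      rw [abs_le] at h1 h2 ⊢
      have h7 : ((#(E.filter (fun q : ℕ => p % 4 = 3 ∧ Adm p ((q : ℕ) : ZMod p))) : ℕ) : ℝ) -
          #E * (2 * gL L (p - 1)) =
        (((#(E.filter (fun q : ℕ => orderOf ((q : ℕ) : ZMod p) = p - 1)) : ℕ) : ℝ) -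
          #E * gL L (p - 1)) +
        (((#(E.filter (fun q : ℕ => orderOf (-((q : ℕ) : ZMod p)) = p - 1)) : ℕ) : ℝ) -
          #E * gL L (p - 1)) := by rw [h6]; ring
      rw [h7]
      constructor
      · linarith [h1.1, h2.1]
      · linarith [h1.2, h2.2]
    · rw [if_neg h4]
      have : (E.filter (fun q : ℕ => p % 4 = 3 ∧ Adm p ((q : ℕ) : ZMod p))) = ∅ := by
        rw [filter_eq_empty_iff]
        intro q _ h
        exact h4 h.1
      rw [this]
      simp only [card_empty, Nat.cast_zero, mul_zero, sub_zero, abs_zero]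
      linarith
  lim := by
    intro L
    have h := (sumG3 L).const_mul 2
    have e : 2 * (artinL L / 2) = artinL L := by ring
    rw [e] at h
    refine h.congr fun x => ?_
    rw [← mul_div_assoc, Finset.mul_sum]
    congr 1
    rw [← Finset.sum_filter]
    rfl

end Pool.Agent.H771R4.SE
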