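import Mathlib
import Pool.Agent.H386R2.Artin.LocalCount
import Pool.Agent.H730R2.AB.LocalSq
import Pool.Agent.H771R4.AQ.Local

set_option autoImplicit false

/-! # Local counts for sets of integers: the odd part of the order -/

namespace Pool.Agent.H771R4.SE

open Finset
open Pool.Agent.H386R2.Artin (PP Good hL gL power_residue incl_excl LC_pos gL_nonneg gL_le_one)
open Pool.Agent.H771R4.AQ (Adm)
open Pool.Agent.H730R2.AA (rho)
open Pool.Agent.H730R2.AB (coprime_t prod_expand one_sub_sum_le gL_two gL_rho)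

section
variable {p : ℕ} [hp : Fact p.Prime]

/-- the odd part of the order of `a` is the odd part of `p - 1` -/
def OddP (p : ℕ) (a : ZMod p) : Prop :=
  a ≠ 0 ∧ ∀ l : ℕ, l.Prime → l ∣ p - 1 → l ≠ 2 → a ^ ((p - 1) / l) ≠ 1

/-- the condition on the function `a` -/
def Lin (p : ℕ) (a : ℕ → ZMod p) : Prop :=
  ∀ K, K ∣ p - 1 → Odd K → ∃ m : ℤ, ¬ (p : ℤ) ∣ m ∧
    ∀ q : ℕ, a q ^ ((p - 1) / K) = 1 ↔ ((m * (q : ℤ) : ℤ) : ZMod p) ^ ((p - 1) / K) = 1

open Classical in
lemma odd_res (E : Finset ℕ) (M : ℝ) (a : ℕ → ZMod p) (hE : ∀ q ∈ E, (q : ZMod p) ≠ 0)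
    (ha : Lin p a) (hM : 0 ≤ M) (hG : Good E M p) (K : ℕ) (hK : K ∣ p - 1) (hodd : Odd K) :
    |((#(E.filter fun q : ℕ => a q ^ ((p - 1) / K) = 1) : ℕ) : ℝ) - (#E : ℝ) / K| ≤ M := by
  obtain ⟨m, hm, h⟩ := ha K hK hodd
  have h1 := power_residue E M m hM hG hm K hK
  have e1 : (E.filter fun q : ℕ => a q ^ ((p - 1) / K) = 1) =
      (E.filter fun q : ℕ => ((m * (q : ℤ) : ℤ) : ZMod p) ^ ((p - 1) / K) = 1) :=
    filter_congr fun q _ => h q
  have e2 : (E.filter fun q : ℕ => (q : ZMod p) ≠ 0) = E := by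
    rw [filter_eq_self]
    exact hE
  rw [e2] at h1
  rw [e1]
  exact h1

open Classical in
theorem odd_count (E : Finset ℕ) (M : ℝ) (a : ℕ → ZMod p) (hE : ∀ q ∈ E, (q : ZMod p) ≠ 0)
    (ha0 : ∀ q ∈ E, a q ≠ 0) (ha : Lin p a) (hM : 0 ≤ M) (hG : Good E M p) (hp2 : p ≠ 2) (L : ℕ)
    (hL2 : 2 ≤ L) :
    |((#(E.filter (fun q : ℕ => OddP p (a q))) : ℕ) : ℝ) - #E * (2 * gL L (p - 1))| ≤
      2 ^ L * M + #E * hL L (p - 1) + (p - 1).primeFactors.card * M := by
  have hp1 : 0 < p - 1 := LC_pos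
  obtain ⟨P, hP⟩ : ∃ P, P = (p - 1).primeFactors.filter (fun l => l ≤ L ∧ l ≠ 2) := ⟨_, rfl⟩
  obtain ⟨R, hR⟩ : ∃ R, R = (p - 1).primeFactors.filter (fun l => L < l) := ⟨_, rfl⟩
  have hPprod : ∏ l ∈ P, (1 - 1 / (l : ℝ)) = 2 * gL L (p - 1) := by
    rw [hP]; exact gL_two L hL2 hp2
  have hPs : P ⊆ (p - 1).primeFactors := by
    rw [hP]
    exact Finset.filter_subset _ _
  have hPodd : ∀ l ∈ P, Odd l := by
    intro l hl
    rw [hP, mem_filter] at hl
    exact (Nat.prime_of_mem_primeFactors hl.1).odd_of_ne_two hl.2.2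
  -- the count with the primes up to L
  have hA : |((#(E.filter fun q : ℕ => a q ≠ 0 ∧ ∀ l ∈ P, (a q) ^ ((p - 1) / l) ≠ 1) : ℕ) : ℝ) -
      (#E : ℝ) * (2 * gL L (p - 1))| ≤ 2 ^ L * M := by
    have h1 : ((#(E.filter fun q : ℕ => a q ≠ 0 ∧ ∀ l ∈ P, (a q) ^ ((p - 1) / l) ≠ 1) : ℕ) : ℝ)
        = ∑ K ∈ P.powerset, (-1 : ℝ) ^ #K *
          ((#(E.filter fun q : ℕ => (a q) ^ ((p - 1) / ∏ l ∈ K, l) = 1) : ℕ) : ℝ) := by
      rw [Finset.card_filter]
      push_cast
      have : ∀ q ∈ E, (if a q ≠ 0 ∧ ∀ l ∈ P, (a q) ^ ((p - 1) / l) ≠ 1 then (1 : ℝ) else 0)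
          = ∑ K ∈ P.powerset, (-1 : ℝ) ^ #K *
            (if (a q) ^ ((p - 1) / ∏ l ∈ K, l) = 1 then 1 else 0) := by
        intro q _
        exact incl_excl _ P hPs
      rw [Finset.sum_congr rfl this, Finset.sum_comm]
      refine Finset.sum_congr rfl fun K _ => ?_
      rw [← Finset.mul_sum]
      congr 1
      rw [Finset.card_filter]
      push_cast
      rfl
    rw [h1, ← hPprod, prod_expand, Finset.mul_sum, ← Finset.sum_sub_distrib]
    calc |∑ K ∈ P.powerset, ((-1 : ℝ) ^ #K *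
          ((#(E.filter fun q : ℕ => (a q) ^ ((p - 1) / ∏ l ∈ K, l) = 1) : ℕ) : ℝ)
          - (#E : ℝ) * ((-1 : ℝ) ^ #K * (1 / ((∏ l ∈ K, l : ℕ) : ℝ))))|
        ≤ ∑ K ∈ P.powerset, |(-1 : ℝ) ^ #K *
          ((#(E.filter fun q : ℕ => (a q) ^ ((p - 1) / ∏ l ∈ K, l) = 1) : ℕ) : ℝ)
          - (#E : ℝ) * ((-1 : ℝ) ^ #K * (1 / ((∏ l ∈ K, l : ℕ) : ℝ)))| :=
          Finset.abs_sum_le_sum_abs _ _
      _ ≤ ∑ K ∈ P.powerset, M := by
          refine Finset.sum_le_sum fun K hK => ?_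
          have hKP := Finset.mem_powerset.mp hK
          have hd : ∏ l ∈ K, l ∣ p - 1 :=
            (Finset.prod_dvd_prod_of_subset _ _ _ (hKP.trans hPs)).trans
              (Nat.prod_primeFactors_dvd _)
          have hoddK : Odd (∏ l ∈ K, l) := by
            exact Finset.prod_induction _ Odd (fun _ _ h1 h2 => h1.mul h2) odd_one
              (fun l hl => hPodd l (hKP hl))
          have h2 := odd_res E M a hE ha hM hG _ hd hoddK
          have h3 : (-1 : ℝ) ^ #K *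
            ((#(E.filter fun q : ℕ => (a q) ^ ((p - 1) / ∏ l ∈ K, l) = 1) : ℕ) : ℝ)
            - (#E : ℝ) * ((-1 : ℝ) ^ #K * (1 / ((∏ l ∈ K, l : ℕ) : ℝ)))
            = (-1 : ℝ) ^ #K * (((#(E.filter fun q : ℕ =>
              (a q) ^ ((p - 1) / ∏ l ∈ K, l) = 1) : ℕ) : ℝ)
              - (#E : ℝ) / ((∏ l ∈ K, l : ℕ) : ℝ)) := by ring
          rw [h3, abs_mul, abs_pow, abs_neg, abs_one, one_pow, one_mul]
          exact h2
      _ = 2 ^ #P * M := by
          rw [Finset.sum_const, Finset.card_powerset, nsmul_eq_mul]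
          push_cast
          ring
      _ ≤ 2 ^ L * M := by
          refine mul_le_mul_of_nonneg_right ?_ hM
          refine pow_le_pow_right₀ (by norm_num) ?_
          have : P ⊆ Finset.Icc 1 L := by
            intro l hl
            rw [hP, Finset.mem_filter] at hl
            exact Finset.mem_Icc.mpr ⟨(Nat.prime_of_mem_primeFactors hl.1).one_le, hl.2.1⟩
          simpa using Finset.card_le_card this
  set B := E.filter (fun q : ℕ => OddP p (a q)) with hB
  set A := E.filter (fun q : ℕ => a q ≠ 0 ∧ ∀ l ∈ P, (a q) ^ ((p - 1) / l) ≠ 1) with hAdef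
  have hBA : B ⊆ A := by
    intro q hq
    rw [hB, Finset.mem_filter] at hq
    rw [hAdef, Finset.mem_filter]
    refine ⟨hq.1, hq.2.1, fun l hl => ?_⟩
    rw [hP, Finset.mem_filter] at hl
    exact hq.2.2 l (Nat.prime_of_mem_primeFactors hl.1) (Nat.dvd_of_mem_primeFactors hl.1) hl.2.2
  have hAB : A ⊆ B ∪ R.biUnion fun l => E.filter fun q : ℕ => (a q) ^ ((p - 1) / l) = 1 := by
    intro q hq
    rw [hAdef, Finset.mem_filter] at hq
    rw [Finset.mem_union, Finset.mem_biUnion]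
    by_cases h : ∀ l ∈ R, (a q) ^ ((p - 1) / l) ≠ 1
    · left
      rw [hB, Finset.mem_filter]
      refine ⟨hq.1, hq.2.1, fun l hlp hld hl2 => ?_⟩
      have hmem : l ∈ (p - 1).primeFactors := Nat.mem_primeFactors.mpr ⟨hlp, hld, hp1.ne'⟩
      rcases le_or_gt l L with hl | hl
      · exact hq.2.2 l (by rw [hP, Finset.mem_filter]; exact ⟨hmem, hl, hl2⟩)
      · exact h l (by rw [hR, Finset.mem_filter]; exact ⟨hmem, hl⟩)
    · right
      push Not at h
      obtain ⟨l, hl, hl1⟩ := h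
      exact ⟨l, hl, Finset.mem_filter.mpr ⟨hq.1, hl1⟩⟩
  have h1 : (B.card : ℝ) ≤ A.card := by exact_mod_cast Finset.card_le_card hBA
  have h2 : (A.card : ℝ) ≤ B.card + ∑ l ∈ R, ((#E : ℝ) / l + M) := by
    have h3 : A.card ≤ B.card + ∑ l ∈ R, (E.filter fun q : ℕ => (a q) ^ ((p - 1) / l) = 1).card :=
      (Finset.card_le_card hAB).trans ((Finset.card_union_le _ _).trans
        (Nat.add_le_add_left Finset.card_biUnion_le _))
    calc (A.card : ℝ) ≤ B.card +
          ∑ l ∈ R, ((E.filter fun q : ℕ => (a q) ^ ((p - 1) / l) = 1).card : ℝ) := by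
          exact_mod_cast h3
      _ ≤ _ := by
          refine add_le_add_right (Finset.sum_le_sum fun l hl => ?_) _
          rw [hR, Finset.mem_filter] at hl
          have hlp := Nat.prime_of_mem_primeFactors hl.1
          have h4 := odd_res E M a hE ha hM hG l (Nat.dvd_of_mem_primeFactors hl.1)
            (hlp.odd_of_ne_two (by omega))
          rw [abs_le] at h4
          linarith [h4.2]
  have hsum : ∑ l ∈ R, ((#E : ℝ) / l + M) ≤
      #E * hL L (p - 1) + (p - 1).primeFactors.card * M := by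
    rw [Finset.sum_add_distrib, Finset.sum_const, nsmul_eq_mul]
    refine add_le_add ?_ ?_
    · unfold hL
      rw [← hR, Finset.mul_sum]
      refine Finset.sum_le_sum fun l _ => ?_
      rw [mul_one_div]
    · refine mul_le_mul_of_nonneg_right ?_ hM
      have : R ⊆ (p - 1).primeFactors := by rw [hR]; exact Finset.filter_subset _ _
      exact_mod_cast Finset.card_le_card this
  rw [abs_le] at hA ⊢
  have h2L : (0 : ℝ) ≤ 2 ^ L * M := by positivity
  have hh : 0 ≤ (#E : ℝ) * hL L (p - 1) := by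
    refine mul_nonneg (by positivity) ?_
    unfold hL
    exact Finset.sum_nonneg fun l _ => by positivity
  have hw : 0 ≤ ((p - 1).primeFactors.card : ℝ) * M := by positivity
  constructor
  · linarith [hA.1]
  · linarith [hA.2]

/-- one squaring step -/
lemma sq_step {K : ℕ} (hK : K ∣ p - 1) (hodd : Odd K) (d b : ZMod p) (hd : d ≠ 0) :
    (d * b ^ 2) ^ ((p - 1) / K) = 1 ↔ (d ^ ((K + 1) / 2) * b) ^ ((p - 1) / K) = 1 := by
  have hp1 : 0 < p - 1 := LC_pos
  have hK0 : 0 < K := Nat.pos_of_dvd_of_pos hK hp1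
  set e := (p - 1) / K with he
  have hek : e * K = p - 1 := Nat.div_mul_cancel hK
  have he0 : 0 < e := by
    rcases Nat.eq_zero_or_pos e with h | h
    · rw [h] at hek; omega
    · exact h
  set t := (K + 1) / 2 with ht
  have h2t : 2 * t = K + 1 := by
    obtain ⟨r, hr⟩ := hodd
    omega
  by_cases hb : b = 0
  · rw [hb]
    simp only [mul_zero, ne_eq, OfNat.ofNat_ne_zero, not_false_eq_true, zero_pow, he0.ne']
  have ha0 : d * b ^ 2 ≠ 0 := mul_ne_zero hd (pow_ne_zero _ hb)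
  have h1 : (d * b ^ 2) ^ t = (d ^ t * b) * b ^ K := by
    rw [mul_pow, ← pow_mul, h2t]
    ring
  have h2 : ((d * b ^ 2) ^ t) ^ e = (d ^ t * b) ^ e := by
    rw [h1, mul_pow, ← pow_mul, mul_comm K e, hek, ZMod.pow_card_sub_one_eq_one hb, mul_one]
  constructor
  · intro h
    rw [← h2, ← pow_mul, mul_comm t e, pow_mul, h, one_pow]
  · intro h
    rw [h] at h2
    have h3 : ((d * b ^ 2) ^ e) ^ t = 1 := by rw [← pow_mul, mul_comm e t, pow_mul]; exact h2
    have h4 : ((d * b ^ 2) ^ e) ^ K = 1 := by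
      rw [← pow_mul, hek]; exact ZMod.pow_card_sub_one_eq_one ha0
    have h5 := orderOf_dvd_of_pow_eq_one h3
    have h6 := orderOf_dvd_of_pow_eq_one h4
    have h7 := Nat.dvd_gcd h5 h6
    rw [(coprime_t hodd).gcd_eq_one] at h7
    exact orderOf_eq_one_iff.1 (Nat.dvd_one.1 h7)

lemma pow2_step {K : ℕ} (hK : K ∣ p - 1) (hodd : Odd K) (j : ℕ) : ∀ (D : ℤ), ¬ (p : ℤ) ∣ D →
    ∃ m : ℤ, ¬ (p : ℤ) ∣ m ∧ ∀ b : ZMod p, ((D : ZMod p) * b ^ (2 ^ j)) ^ ((p - 1) / K) = 1 ↔
      ((m : ZMod p) * b) ^ ((p - 1) / K) = 1 := by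
  induction j with
  | zero => intro D hD; exact ⟨D, hD, fun b => by simp⟩
  | succ j ih =>
    intro D hD
    have hD' : (D : ZMod p) ≠ 0 := by rwa [Ne, ZMod.intCast_zmod_eq_zero_iff_dvd]
    have hD2 : ¬ (p : ℤ) ∣ D ^ ((K + 1) / 2) := by
      rw [← ZMod.intCast_zmod_eq_zero_iff_dvd]
      push_cast
      exact pow_ne_zero _ hD'
    obtain ⟨m, hm, h⟩ := ih (D ^ ((K + 1) / 2)) hD2
    refine ⟨m, hm, fun b => ?_⟩
    have h1 := sq_step hK hodd (D : ZMod p) (b ^ (2 ^ j)) hD'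
    have h2 : (D : ZMod p) * b ^ (2 ^ (j + 1)) = (D : ZMod p) * (b ^ (2 ^ j)) ^ 2 := by
      rw [← pow_mul, pow_succ]
    rw [h2, h1, ← h b]
    push_cast
    rfl

lemma lin_pow2 (D : ℤ) (hD : ¬ (p : ℤ) ∣ D) (j : ℕ) :
    Lin p (fun q : ℕ => (D : ZMod p) * (q : ZMod p) ^ (2 ^ j)) := by
  intro K hK hodd
  obtain ⟨m, hm, h⟩ := pow2_step hK hodd j D hD
  refine ⟨m, hm, fun q => ?_⟩
  rw [h (q : ZMod p)]
  push_cast
  rfl

/-- the order is `p - 1` or `(p - 1) / 2` if and only if its odd part is maximal -/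
lemma adm_iff_oddP (h4 : p % 4 = 3) (a : ZMod p) : Adm p a ↔ OddP p a := by
  have hp1 : 0 < p - 1 := LC_pos
  obtain ⟨k, hk1, hk2⟩ : ∃ k, p - 1 = 2 * k ∧ k % 2 = 1 := ⟨(p - 1) / 2, by omega, by omega⟩
  have hkpos : 0 < k := by omega
  have hodd : Odd k := Nat.odd_iff.2 hk2
  constructor
  · intro h
    have h0 : a ≠ 0 := by
      rintro rfl
      have h1 : orderOf (0 : ZMod p) = 0 := by
        rw [orderOf_eq_zero_iff']
        intro n hn
        rw [zero_pow (by omega)]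
        exact zero_ne_one
      unfold Adm at h
      rw [h1] at h
      omega
    refine ⟨h0, fun l hl hld hl2 hcon => ?_⟩
    have h1 := orderOf_dvd_of_pow_eq_one hcon
    obtain ⟨c, hc⟩ := hld
    have hl3 : 3 ≤ l := by
      have := hl.two_le
      omega
    have hdiv : (p - 1) / l = c := by rw [hc]; exact Nat.mul_div_cancel_left c hl.pos
    rw [hdiv] at h1
    have hc0 : 0 < c := by
      rcases Nat.eq_zero_or_pos c with h | h
      · rw [h] at hc; omega
      · exact h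
    have h2 := Nat.le_of_dvd hc0 h1
    have h3 : l * c ≥ 3 * c := Nat.mul_le_mul_right c hl3
    rcases h with h | h
    · rw [h] at h2; omega
    · omega
  · rintro ⟨h0, h⟩
    have h1 : orderOf (a ^ 2) = k := by
      apply orderOf_eq_of_pow_and_pow_div_prime hkpos
      · rw [← pow_mul, ← hk1]
        exact ZMod.pow_card_sub_one_eq_one h0
      · intro l hl hlk
        have hl2 : l ≠ 2 := by
          rintro rfl
          obtain ⟨c, hc⟩ := hlk
          omega
        have h2 := h l hl (hk1 ▸ Dvd.dvd.mul_left hlk 2) hl2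
        rw [← pow_mul]
        have h3 : 2 * (k / l) = (p - 1) / l := by
          rw [hk1, Nat.mul_div_assoc _ hlk]
        rw [h3]
        exact h2
    have h2 : orderOf (a ^ 2) = orderOf a / Nat.gcd (orderOf a) 2 := orderOf_pow' a (by norm_num)
    rw [h1] at h2
    have hg : Nat.gcd (orderOf a) 2 ∣ 2 := Nat.gcd_dvd_right _ _
    have hgd : Nat.gcd (orderOf a) 2 ∣ orderOf a := Nat.gcd_dvd_left _ _
    have h3 : orderOf a = k * Nat.gcd (orderOf a) 2 := by
      rw [h2]; exact (Nat.div_mul_cancel hgd).symm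
    unfold Adm
    rcases (Nat.dvd_prime Nat.prime_two).1 hg with h5 | h5
    · right; rw [h3, h5]; omega
    · left; rw [h3, h5]; omega

/-- for a quadratic nonresidue the order is `p - 1` if and only if its odd part is maximal -/
lemma prim_iff_oddP (hp2 : p ≠ 2) (a : ZMod p) (hneg : a ^ (p / 2) = -1) :
    orderOf a = p - 1 ↔ OddP p a := by
  have hp1 : 0 < p - 1 := LC_pos
  have hpd : (p - 1) / 2 = p / 2 := by
    have := hp.out.eq_two_or_odd
    omega
  constructor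
  · intro h
    have h0 : a ≠ 0 := by
      rintro rfl
      have h1 : orderOf (0 : ZMod p) = 0 := by
        rw [orderOf_eq_zero_iff']
        intro n hn
        rw [zero_pow (by omega)]
        exact zero_ne_one
      omega
    refine ⟨h0, fun l hl hld hl2 hcon => ?_⟩
    have h1 := orderOf_dvd_of_pow_eq_one hcon
    rw [h] at h1
    have h4 := Nat.le_of_dvd (Nat.div_pos (Nat.le_of_dvd hp1 hld) hl.pos) h1
    have h5 : (p - 1) / l < p - 1 := Nat.div_lt_self hp1 hl.one_lt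
    omega
  · rintro ⟨h0, h⟩
    apply orderOf_eq_of_pow_and_pow_div_prime hp1 (ZMod.pow_card_sub_one_eq_one h0)
    intro l hl hld
    by_cases hl2 : l = 2
    · subst hl2
      rw [hpd, hneg]
      intro hcon
      have h3 : ((2 : ℕ) : ZMod p) = 0 := by
        push_cast
        linear_combination -hcon
      rw [ZMod.natCast_eq_zero_iff] at h3
      have := (Nat.prime_dvd_prime_iff_eq hp.out Nat.prime_two).1 h3
      exact hp2 this
    · exact h l hl hld hl2

end

end Pool.Agent.H771R4.SE
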