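import Mathlib
import Pool.Agent.H771R4.SE.Odd
import Pool.Agent.H771R4.SE.Local
import Pool.Agent.H771R4.AQ.MainLim
import Pool.Agent.H730R2.AA.MainTerm
import Pool.Agent.H730R2.AA.OneX

set_option autoImplicit false

/-! # Three counting problems -/

namespace Pool.Agent.H771R4.SE

open Finset Filter Topology
open Pool.Agent.H386R2.Artin (PP Good hL gL LC_pos gL_nonneg gL_le_one artinL artinC sumH artinLim
  sumG)
open Pool.Agent.H771R4.AQ (Adm P34 PR mainT)
open Pool.Agent.H730R2.AA (rho)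
open Pool.Agent.H730R2.AB (gL_rho)

/-- the data of a counting problem: a condition `Q` modulo every prime, local densities `G p`, the
average density `A` -/
structure Dat where
  Q : (p : ℕ) → ZMod p → Prop
  G : ℕ → ℝ
  A : ℝ
  p0 : ℕ
  G0 : ∀ p, 0 ≤ G p
  G1 : ∀ p, G p ≤ 2
  loc : ∀ (p : ℕ), p.Prime → p0 ≤ p → ∀ (E : Finset ℕ) (M : ℝ) (L : ℕ), 2 ≤ L →
    (∀ q ∈ E, (q : ZMod p) ≠ 0) → 0 ≤ M → Good E M p →
    |((open Classical in #(E.filter (fun q : ℕ => Q p ((q : ℕ) : ZMod p))) : ℕ) : ℝ) -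
      #E * G p| ≤
      1 + 2 ^ L * M + 3 * (#E * hL L (p - 1)) + (p - 1).primeFactors.card * M
  lim : Tendsto (fun x : ℕ => (∑ p ∈ PP x, G p) / (Nat.primeCounting x : ℝ)) atTop (𝓝 A)

lemma hL_nn (L p : ℕ) : 0 ≤ hL L (p - 1) := Finset.sum_nonneg fun l _ => by positivity

lemma rho_nn (p : ℕ) : 0 ≤ rho p := by unfold rho; positivity

lemma rho_le (p : ℕ) : rho p ≤ 1 := by
  unfold rho
  apply div_le_one_of_le₀ _ (Nat.cast_nonneg _)
  exact_mod_cast Nat.totient_le _

lemma err_nn (p : ℕ) (E : Finset ℕ) (M : ℝ) (L : ℕ) (hM : 0 ≤ M) :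
    0 ≤ 1 + 2 ^ L * M + 3 * ((#E : ℝ) * hL L (p - 1)) + ((p - 1).primeFactors.card : ℝ) * M := by
  have hh0 := hL_nn L p
  positivity

theorem rho_lim : Tendsto (fun x : ℕ => (∑ p ∈ PP x, rho p) / (Nat.primeCounting x : ℝ)) atTop
    (𝓝 artinC) := by
  classical
  obtain ⟨C, hC, h5⟩ := sumH
  have h7 : Tendsto artinL atTop (𝓝 artinC) := artinLim
  rw [Metric.tendsto_atTop]
  intro ε hε
  have hLlim : ∀ᶠ L : ℕ in atTop, |artinL L - artinC| < ε / 4 := by
    have := (Metric.tendsto_nhds.1 h7) (ε / 4) (by positivity)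
    simpa [Real.dist_eq] using this
  have hCL : ∀ᶠ L : ℕ in atTop, C / (L : ℝ) < ε / 4 := by
    have : Tendsto (fun L : ℕ => C / (L : ℝ)) atTop (𝓝 0) :=
      tendsto_const_nhds.div_atTop tendsto_natCast_atTop_atTop
    exact this.eventually (gt_mem_nhds (by positivity))
  obtain ⟨L, ⟨hL1, hL2⟩, hL3⟩ := ((hLlim.and hCL).and (eventually_ge_atTop 1)).exists
  obtain ⟨x₅, hx₅⟩ := h5 L hL3
  have hG : ∀ᶠ x : ℕ in atTop, |(∑ p ∈ PP x, gL L (p - 1)) / (Nat.primeCounting x : ℝ) -
      artinL L| < ε / 4 := by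
    have := (Metric.tendsto_nhds.1 (sumG L)) (ε / 4) (by positivity)
    simpa [Real.dist_eq] using this
  have hπ : ∀ᶠ x : ℕ in atTop, (1 : ℝ) ≤ (Nat.primeCounting x : ℝ) :=
    (Filter.tendsto_atTop.mp (tendsto_natCast_atTop_atTop.comp
      Nat.tendsto_primeCounting) _)
  obtain ⟨x₀, hx₀⟩ := eventually_atTop.1 ((hG.and hπ).and (eventually_ge_atTop x₅))
  refine ⟨x₀, fun x hx => ?_⟩
  obtain ⟨⟨g1, g2⟩, g3⟩ := hx₀ x hx
  set P : ℝ := (Nat.primeCounting x : ℝ) with hP
  have hP0 : 0 < P := lt_of_lt_of_le one_pos g2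
  have hh := hx₅ x g3
  have h13 : |∑ p ∈ PP x, gL L (p - 1) - ∑ p ∈ PP x, rho p| ≤ C / L * P := by
    rw [← Finset.sum_sub_distrib]
    refine (Finset.abs_sum_le_sum_abs _ _).trans ?_
    calc ∑ p ∈ PP x, |gL L (p - 1) - rho p| ≤ ∑ p ∈ PP x, hL L (p - 1) := by
          apply Finset.sum_le_sum
          intro p hp
          have hpp : p.Prime := by
            unfold PP at hp
            rw [mem_filter] at hp
            exact hp.2
          have : Fact p.Prime := ⟨hpp⟩
          obtain ⟨c1, c2⟩ := gL_rho (p := p) L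
          rw [abs_of_nonneg c1]
          exact c2
      _ ≤ C / L * P := hh
  have h14 : |∑ p ∈ PP x, gL L (p - 1) - artinL L * P| ≤ ε / 4 * P := by
    have e1 : ∑ p ∈ PP x, gL L (p - 1) - artinL L * P =
        ((∑ p ∈ PP x, gL L (p - 1)) / P - artinL L) * P := by
      field_simp
    rw [e1, abs_mul, abs_of_pos hP0]
    exact mul_le_mul_of_nonneg_right g1.le hP0.le
  have h15 : |artinL L * P - artinC * P| ≤ ε / 4 * P := by
    rw [← sub_mul, abs_mul, abs_of_pos hP0]
    exact mul_le_mul_of_nonneg_right hL1.le hP0.le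
  have h16 : |∑ p ∈ PP x, rho p - artinC * P| < ε * P := by
    have t1 : C / L * P ≤ ε / 4 * P := mul_le_mul_of_nonneg_right hL2.le hP0.le
    rw [abs_le] at h13 h14 h15
    rw [abs_lt]
    have : 0 < ε * P := by positivity
    constructor
    · linarith [h13.1, h13.2, h14.1, h14.2, h15.1, h15.2]
    · linarith [h13.1, h13.2, h14.1, h14.2, h15.1, h15.2]
  rw [Real.dist_eq]
  have h17 : (∑ p ∈ PP x, rho p) / P - artinC = (∑ p ∈ PP x, rho p - artinC * P) / P := by
    field_simp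
  rw [h17, abs_div, abs_of_pos hP0, div_lt_iff₀ hP0]
  exact h16

lemma not_dvd_of_lt {p : ℕ} {D : ℤ} (hD : D ≠ 0) (h : D.natAbs + 1 ≤ p) : ¬ (p : ℤ) ∣ D := by
  intro hd
  have h1 := Int.natCast_dvd.1 hd
  have h2 := Nat.le_of_dvd (Int.natAbs_pos.2 hD) h1
  omega

/-- Artin's conjecture for `D n` -/
noncomputable def dLin (D : ℤ) (hD : D ≠ 0) : Dat where
  Q := fun p a => orderOf ((D : ZMod p) * a) = p - 1
  G := rho
  A := artinC
  p0 := D.natAbs + 1
  G0 := rho_nn
  G1 := fun p => (rho_le p).trans (by norm_num)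
  loc := by
    classical
    intro p hp hp0 E M L _ hE hM hG
    have : Fact p.Prime := ⟨hp⟩
    have h := LC_mainI E M D hE hM hG (not_dvd_of_lt hD hp0) L
    have h2 : (E.filter (fun q : ℕ => orderOf ((D * (q : ℤ) : ℤ) : ZMod p) = p - 1)) =
        (E.filter (fun q : ℕ => orderOf ((D : ZMod p) * ((q : ℕ) : ZMod p)) = p - 1)) := by
      apply filter_congr
      intro q _
      simp
    rw [h2] at h
    obtain ⟨c1, c2⟩ := gL_rho (p := p) L
    have hE0 : (0 : ℝ) ≤ #E := Nat.cast_nonneg _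
    have c3 : (#E : ℝ) * (gL L (p - 1) - rho p) ≤ #E * hL L (p - 1) :=
      mul_le_mul_of_nonneg_left c2 hE0
    have c4 : 0 ≤ (#E : ℝ) * (gL L (p - 1) - rho p) := mul_nonneg hE0 c1
    have c5 : 0 ≤ (#E : ℝ) * hL L (p - 1) := mul_nonneg hE0 (hL_nn L p)
    suffices key : |((#(E.filter (fun q : ℕ => orderOf ((D : ZMod p) * ((q : ℕ) : ZMod p)) =
        p - 1)) : ℕ) : ℝ) - #E * rho p| ≤
        1 + 2 ^ L * M + 3 * (#E * hL L (p - 1)) + (p - 1).primeFactors.card * M by
      refine le_trans (le_of_eq ?_) key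
      congr!
    rw [abs_le] at h ⊢
    constructor
    · linarith [h.1]
    · linarith [h.2]
  lim := rho_lim

/-- a local count from `odd_count` -/
lemma loc_odd {p : ℕ} (hp : p.Prime) (hp2 : p ≠ 2) (E : Finset ℕ) (M : ℝ) (L : ℕ) (hL2 : 2 ≤ L)
    (hE : ∀ q ∈ E, (q : ZMod p) ≠ 0) (hM : 0 ≤ M) (hG : Good E M p) (a : ℕ → ZMod p)
    (ha0 : ∀ q ∈ E, a q ≠ 0) (ha : Lin p a) (S : Finset ℕ)
    (hS : ∀ q, q ∈ S ↔ q ∈ E ∧ OddP p (a q)) :
    |(#S : ℝ) - #E * (2 * rho p)| ≤
      1 + 2 ^ L * M + 3 * (#E * hL L (p - 1)) + (p - 1).primeFactors.card * M := by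
  classical
  have : Fact p.Prime := ⟨hp⟩
  have h := odd_count E M a hE ha0 ha hM hG hp2 L hL2
  have e : S = E.filter (fun q : ℕ => OddP p (a q)) := by
    ext q
    rw [mem_filter]
    exact hS q
  rw [← e] at h
  obtain ⟨c1, c2⟩ := gL_rho (p := p) L
  have hE0 : (0 : ℝ) ≤ #E := Nat.cast_nonneg _
  have c3 : (#E : ℝ) * (gL L (p - 1) - rho p) ≤ #E * hL L (p - 1) :=
    mul_le_mul_of_nonneg_left c2 hE0
  have c4 : 0 ≤ (#E : ℝ) * (gL L (p - 1) - rho p) := mul_nonneg hE0 c1
  rw [abs_le] at h ⊢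
  constructor
  · linarith [h.1]
  · linarith [h.2]

/-- primes congruent to 3 modulo 4, order of `D n ^ (2 ^ j)` equal to `p - 1` or `(p - 1) / 2` -/
noncomputable def dAdm (D : ℤ) (hD : D ≠ 0) (j : ℕ) : Dat where
  Q := fun p a => p % 4 = 3 ∧ Adm p ((D : ZMod p) * a ^ (2 ^ j))
  G := fun p => if p % 4 = 3 then 2 * rho p else 0
  A := artinC
  p0 := D.natAbs + 1
  G0 := fun p => by
    split_ifs
    · have := rho_nn p
      positivity
    · exact le_rfl
  G1 := fun p => by
    split_ifs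
    · have := rho_le p
      linarith
    · norm_num
  loc := by
    classical
    intro p hp hp0 E M L hL2 hE hM hG
    have : Fact p.Prime := ⟨hp⟩
    have hpD : ¬ (p : ℤ) ∣ D := not_dvd_of_lt hD hp0
    have hD' : (D : ZMod p) ≠ 0 := by rwa [Ne, ZMod.intCast_zmod_eq_zero_iff_dvd]
    by_cases h4 : p % 4 = 3
    · simp only [if_pos h4]
      refine loc_odd hp (by omega) E M L hL2 hE hM hG
        (fun q : ℕ => (D : ZMod p) * (q : ZMod p) ^ (2 ^ j)) (fun q hq =>
          mul_ne_zero hD' (pow_ne_zero _ (hE q hq))) (lin_pow2 D hpD j) _ (fun q => ?_)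
      refine (@Finset.mem_filter _ _ (fun _ => Classical.propDecidable _) _ _).trans ?_
      simp only [h4, true_and, adm_iff_oddP h4]
    · have e2 : ((#(E.filter (fun q : ℕ => p % 4 = 3 ∧ Adm p ((D : ZMod p) *
          ((q : ℕ) : ZMod p) ^ (2 ^ j)))) : ℕ) : ℝ) = 0 := by
        rw [filter_eq_empty_iff.2 (fun q _ hcon => h4 hcon.1)]
        simp
      simp only [if_neg h4, mul_zero, sub_zero]
      refine le_trans (le_of_eq ?_) (err_nn p E M L hM)
      rw [abs_eq_zero]
      refine Eq.trans ?_ e2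
      congr!
  lim := by
    have h := Pool.Agent.H771R4.AQ.main_lim 1 one_ne_zero
    unfold Pool.Agent.H771R4.AQ.dens at h
    refine h.congr fun x => ?_
    congr 1
    unfold mainT PR PP
    rw [← Finset.sum_filter]
    apply Finset.sum_congr _ (fun _ _ => rfl)
    ext p
    simp only [mem_filter]
    constructor
    · rintro ⟨h1, h2, h3, _⟩
      exact ⟨⟨h1, h2⟩, h3⟩
    · rintro ⟨⟨h1, h2⟩, h3⟩
      refine ⟨h1, h2, h3, fun h4 => ?_⟩
      have h5 : (p : ℤ) ≤ 1 := Int.le_of_dvd one_pos h4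
      have := h2.two_le
      omega

/-- Artin's conjecture for `D n ^ 2` -/
noncomputable def dSq (D : ℤ) (hD : Squarefree D) (hD4 : D % 4 = 1) (hD1 : D ≠ 1) : Dat where
  Q := fun p a => orderOf ((D : ZMod p) * a ^ 2) = p - 1
  G := fun p => if p ∈ Pool.Agent.H730R2.AA.PR D p then rho p * (1 - (jacobiSym D p : ℝ)) else 0
  A := Pool.Agent.H730R2.AA.dens D
  p0 := D.natAbs + 3
  G0 := fun p => by
    split_ifs
    · exact mul_nonneg (rho_nn p) (Pool.Agent.H730R2.AA.ox_jac D p).1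
    · exact le_rfl
  G1 := fun p => by
    split_ifs
    · have h1 := (Pool.Agent.H730R2.AA.ox_jac D p).1
      have h2 := (Pool.Agent.H730R2.AA.ox_jac D p).2
      have h3 := rho_le p
      have h4 := rho_nn p
      calc rho p * (1 - (jacobiSym D p : ℝ)) ≤ 1 * 2 := by gcongr
        _ = 2 := by norm_num
    · norm_num
  loc := by
    classical
    intro p hp hp0 E M L hL2 hE hM hG
    have : Fact p.Prime := ⟨hp⟩
    have hpD : ¬ (p : ℤ) ∣ D := not_dvd_of_lt hD.ne_zero (by omega)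
    have hp2 : p ≠ 2 := by omega
    have hD' : (D : ZMod p) ≠ 0 := by rwa [Ne, ZMod.intCast_zmod_eq_zero_iff_dvd]
    have hPR : p ∈ Pool.Agent.H730R2.AA.PR D p := by
      unfold Pool.Agent.H730R2.AA.PR
      rw [mem_filter, mem_range]
      exact ⟨by omega, hp, hp2, hpD⟩
    have hj : jacobiSym D p = legendreSym p D := (jacobiSym.legendreSym.to_jacobiSym p D).symm
    simp only [if_pos hPR, hj]
    have hpd : (p - 1) / 2 = p / 2 := by
      have := hp.eq_two_or_odd
      omega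
    have hc : 2 * ((p - 1) / 2) = p - 1 := by
      have := hp.eq_two_or_odd
      omega
    rcases legendreSym.eq_one_or_neg_one p hD' with h | h
    · -- quadratic residue
      have h1 : (D : ZMod p) ^ (p / 2) = 1 := by
        have := legendreSym.eq_pow p D
        rw [h] at this
        rw [← this]
        push_cast; rfl
      have hempty : (E.filter (fun q : ℕ => orderOf ((D : ZMod p) * ((q : ℕ) : ZMod p) ^ 2) =
          p - 1)) = ∅ := by
        rw [filter_eq_empty_iff]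
        intro q hq hcon
        have h2 : ((D : ZMod p) * ((q : ℕ) : ZMod p) ^ 2) ^ ((p - 1) / 2) = 1 := by
          rw [mul_pow, ← pow_mul, hc, ZMod.pow_card_sub_one_eq_one (hE q hq), mul_one, hpd]
          exact h1
        have h3 := orderOf_dvd_of_pow_eq_one h2
        rw [hcon] at h3
        have h4 : 0 < (p - 1) / 2 := by omega
        have h5 := Nat.le_of_dvd h4 h3
        omega
      have e1 : (1 : ℝ) - ((legendreSym p D : ℤ) : ℝ) = 0 := by rw [h]; push_cast; norm_num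
      rw [e1, mul_zero, mul_zero, sub_zero]
      have e2 : ((#(E.filter (fun q : ℕ => orderOf ((D : ZMod p) * ((q : ℕ) : ZMod p) ^ 2) =
          p - 1)) : ℕ) : ℝ) = 0 := by rw [hempty]; simp
      refine le_trans (le_of_eq ?_) (err_nn p E M L hM)
      rw [abs_eq_zero]
      refine Eq.trans ?_ e2
      congr!
    · have h1 : (D : ZMod p) ^ (p / 2) = -1 := by
        have := legendreSym.eq_pow p D
        rw [h] at this
        rw [← this]
        push_cast; rfl
      have e1 : rho p * ((1 : ℝ) - ((legendreSym p D : ℤ) : ℝ)) = 2 * rho p := by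
        rw [h]; push_cast; ring
      rw [e1]
      refine loc_odd hp hp2 E M L hL2 hE hM hG
        (fun q : ℕ => (D : ZMod p) * (q : ZMod p) ^ (2 ^ 1)) (fun q hq =>
          mul_ne_zero hD' (pow_ne_zero _ (hE q hq))) (lin_pow2 D hpD 1) _ (fun q => ?_)
      refine (@Finset.mem_filter _ _ (fun _ => Classical.propDecidable _) _ _).trans ?_
      apply and_congr_right
      intro hq
      rw [pow_one]
      apply prim_iff_oddP hp2
      rw [mul_pow, ← pow_mul, ← hpd, hc, ZMod.pow_card_sub_one_eq_one (hE q hq), mul_one, hpd]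
      exact h1
  lim := by
    have h := Pool.Agent.H730R2.AA.main_lim D hD hD4 hD1
    refine h.congr fun x => ?_
    congr 1
    unfold Pool.Agent.H730R2.AA.mainT PP
    rw [← Finset.sum_filter]
    apply Finset.sum_congr _ (fun _ _ => rfl)
    ext p
    unfold Pool.Agent.H730R2.AA.PR
    simp only [mem_filter, mem_range]
    constructor
    · rintro ⟨h1, h2, h3, h4⟩
      exact ⟨⟨h1, h2⟩, by omega, h2, h3, h4⟩
    · rintro ⟨⟨h1, h2⟩, _, _, h3, h4⟩
      exact ⟨h1, h2, h3, h4⟩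

end Pool.Agent.H771R4.SE
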