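import Mathlib
import Pool.Agent.H386R2.Artin.BadCount
import Pool.Agent.H510R2.Div

set_option autoImplicit false

/-! # The large sieve for an arbitrary set of integers, through `r`-th powers -/

namespace Pool.Agent.H771R4.SE

open Finset
open Pool.Agent.H386R2.Artin (PP Good)
open Pool.Agent.H386R2.Artin.T1 (cc prim_of_prime)

lemma maps_toI (E : Finset ℕ) (N r : ℕ) (hE : E ⊆ Icc 1 N) :
    ∀ v ∈ Fintype.piFinset (fun _ : Fin r => E), ∏ i, v i ∈ Icc 1 (N ^ r) := by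
  intro v hv
  rw [Fintype.mem_piFinset] at hv
  have h : ∀ i, 1 ≤ v i ∧ v i ≤ N := fun i => mem_Icc.1 (hE (hv i))
  rw [mem_Icc]
  refine ⟨Nat.one_le_iff_ne_zero.mpr (prod_ne_zero_iff.mpr fun i _ => by have := (h i).1; omega), ?_⟩
  calc ∏ i, v i ≤ ∏ _i : Fin r, N := prod_le_prod' fun i _ => (h i).2
    _ = N ^ r := by simp

lemma sum_pow_eqI (E : Finset ℕ) (N r : ℕ) (hE : E ⊆ Icc 1 N) (p : ℕ)
    (χ : DirichletCharacter ℂ p) :
    (∑ q ∈ E, χ (q : ZMod p)) ^ r = ∑ n ∈ Icc 1 (N ^ r), (cc E r n : ℂ) * χ (n : ZMod p) := by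
  have h1 : (∑ q ∈ E, χ (q : ZMod p)) ^ r =
      ∑ v ∈ Fintype.piFinset (fun _ : Fin r => E), ∏ i, χ (v i : ZMod p) := by
    have := Finset.prod_univ_sum (fun _ : Fin r => E) (fun _ (q : ℕ) => χ (q : ZMod p))
    rw [← this]
    simp
  have h2 : ∀ v ∈ Fintype.piFinset (fun _ : Fin r => E),
      ∏ i, χ (v i : ZMod p) = χ ((∏ i, v i : ℕ) : ZMod p) := by
    intro v _
    rw [Nat.cast_prod, map_prod]
  rw [h1, sum_congr rfl h2, ← Finset.sum_fiberwise_of_maps_to (maps_toI E N r hE)]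
  apply sum_congr rfl
  intro n _
  rw [sum_congr rfl (g := fun _ => χ (n : ZMod p))]
  · rw [sum_const, nsmul_eq_mul]; rfl
  · intro v hv
    rw [mem_filter] at hv
    rw [hv.2]

/-- the number of `r`-tuples with product `n` is at most `τ(n) ^ r` -/
lemma cc_leI (E : Finset ℕ) (r n : ℕ) (hn : n ≠ 0) : cc E r n ≤ n.divisors.card ^ r := by
  classical
  unfold cc
  have h : (Fintype.piFinset (fun _ : Fin r => E)).filter (fun v => ∏ i, v i = n) ⊆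
      Fintype.piFinset (fun _ : Fin r => n.divisors) := by
    intro v hv
    rw [mem_filter] at hv
    rw [Fintype.mem_piFinset]
    intro i
    rw [Nat.mem_divisors]
    exact ⟨hv.2 ▸ Finset.dvd_prod_of_mem v (mem_univ i), hn⟩
  refine (card_le_card h).trans ?_
  rw [Fintype.card_piFinset]
  simp

lemma sum_ccI (E : Finset ℕ) (N r : ℕ) (hE : E ⊆ Icc 1 N) :
    ∑ n ∈ Icc 1 (N ^ r), cc E r n = #E ^ r := by
  have := Finset.card_eq_sum_card_fiberwise (maps_toI E N r hE)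
  unfold cc
  rw [← this]
  simp

lemma sum_cc_sqI (E : Finset ℕ) (N r : ℕ) (hE : E ⊆ Icc 1 N) (K : ℝ)
    (hK : ∀ n ∈ Icc 1 (N ^ r), (cc E r n : ℝ) ≤ K) :
    ∑ n ∈ Icc 1 (N ^ r), ‖(cc E r n : ℂ)‖ ^ 2 ≤ K * (#E : ℝ) ^ r := by
  have h1 : ((∑ n ∈ Icc 1 (N ^ r), cc E r n : ℕ) : ℝ) = (#E : ℝ) ^ r := by
    rw [sum_ccI E N r hE]; push_cast; rfl
  rw [← h1, Nat.cast_sum, mul_sum]
  apply sum_le_sum
  intro n hn
  rw [Complex.norm_natCast, sq]
  exact mul_le_mul_of_nonneg_right (hK n hn) (Nat.cast_nonneg _)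

open Classical in
theorem badCountI (E : Finset ℕ) (N x r : ℕ) (M K : ℝ) (hE : E ⊆ Icc 1 N) (hM : 0 < M)
    (hK0 : 0 ≤ K) (hK : ∀ n ∈ Icc 1 (N ^ r), (cc E r n : ℝ) ≤ K) :
    (#((PP x).filter (fun p => ¬ Good E M p)) : ℝ) * M ^ (2 * r) ≤
      6 * ((N : ℝ) ^ r + (x : ℝ) ^ 2) * (K * (#E : ℝ) ^ r) := by
  have hLS := Helper112.mult_large_sieve (N ^ r) x (fun n => (cc E r n : ℂ))
  set bad := (PP x).filter (fun p => ¬ Good E M p) with hbad
  have hchoose : ∀ p ∈ bad, ∃ χ : DirichletCharacter ℂ p, χ ≠ 1 ∧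
      M < ‖∑ q ∈ E, χ (q : ZMod p)‖ := by
    intro p hp
    rw [hbad, mem_filter] at hp
    have := hp.2
    unfold Good at this
    push Not at this
    exact this
  have hpp : ∀ p ∈ bad, p.Prime ∧ p ≤ x := by
    intro p hp
    rw [hbad, mem_filter, PP, mem_filter, mem_range] at hp
    exact ⟨hp.1.2, by omega⟩
  have hsub : bad ⊆ Icc 1 x := by
    intro p hp
    rw [mem_Icc]
    exact ⟨(hpp p hp).1.one_le, (hpp p hp).2⟩
  have hlow : (bad.card : ℝ) * M ^ (2 * r) ≤ ∑ f ∈ Icc 1 x, ((f : ℝ) / (Nat.totient f : ℝ)) *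
      ∑ χ ∈ (univ : Finset (DirichletCharacter ℂ f)).filter (fun χ => χ.IsPrimitive),
        ‖∑ n ∈ Icc 1 (N ^ r), (cc E r n : ℂ) * χ (n : ZMod f)‖ ^ 2 := by
    rw [← nsmul_eq_mul, ← sum_const]
    refine le_trans (sum_le_sum ?_) (sum_le_sum_of_subset_of_nonneg hsub ?_)
    · intro p hp
      obtain ⟨χ, hχ1, hχM⟩ := hchoose p hp
      have hprim := prim_of_prime (hpp p hp).1 hχ1
      have h1 : M ^ (2 * r) ≤ ‖∑ n ∈ Icc 1 (N ^ r), (cc E r n : ℂ) * χ (n : ZMod p)‖ ^ 2 := by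
        rw [← sum_pow_eqI E N r hE p χ, norm_pow, ← pow_mul, mul_comm r 2]
        exact pow_le_pow_left₀ hM.le hχM.le _
      have h2 : ‖∑ n ∈ Icc 1 (N ^ r), (cc E r n : ℂ) * χ (n : ZMod p)‖ ^ 2 ≤
          ∑ χ ∈ (univ : Finset (DirichletCharacter ℂ p)).filter (fun χ => χ.IsPrimitive),
            ‖∑ n ∈ Icc 1 (N ^ r), (cc E r n : ℂ) * χ (n : ZMod p)‖ ^ 2 :=
        single_le_sum (f := fun χ : DirichletCharacter ℂ p =>
          ‖∑ n ∈ Icc 1 (N ^ r), (cc E r n : ℂ) * χ (n : ZMod p)‖ ^ 2)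
          (fun _ _ => sq_nonneg _) (mem_filter.mpr ⟨mem_univ _, hprim⟩)
      have h3 : (1 : ℝ) ≤ (p : ℝ) / (Nat.totient p : ℝ) := by
        have h0 : (0 : ℝ) < (Nat.totient p : ℝ) := by
          exact_mod_cast Nat.totient_pos.mpr (hpp p hp).1.pos
        rw [le_div_iff₀ h0, one_mul]
        exact_mod_cast Nat.totient_le p
      calc M ^ (2 * r) ≤ _ := h1.trans h2
        _ ≤ _ := le_mul_of_one_le_left (sum_nonneg fun _ _ => sq_nonneg _) h3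
    · intro f _ _
      exact mul_nonneg (div_nonneg (Nat.cast_nonneg _) (Nat.cast_nonneg _))
        (sum_nonneg fun _ _ => sq_nonneg _)
  calc (bad.card : ℝ) * M ^ (2 * r)
      ≤ 6 * (((N ^ r : ℕ) : ℝ) + (x : ℝ) ^ 2) *
        ∑ n ∈ Icc 1 (N ^ r), ‖(cc E r n : ℂ)‖ ^ 2 := by
        refine hlow.trans ?_
        convert hLS using 1
    _ ≤ 6 * (((N ^ r : ℕ) : ℝ) + (x : ℝ) ^ 2) * (K * (#E : ℝ) ^ r) := by
        apply mul_le_mul_of_nonneg_left (sum_cc_sqI E N r hE K hK) (by positivity)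
    _ = _ := by push_cast; ring

/-- the choice of `r`, as an inequality between real powers -/
theorem fewBadI (η : ℝ) (hη : 0 < η) (hη4 : η ≤ 1 / 4) (C' : ℝ) (hC' : 1 ≤ C') :
    ∃ B : ℝ, ∃ R : ℕ, 0 < B ∧ ∀ N x : ℕ, 2 ≤ N → (N : ℝ) ^ (1 / η) ≤ x → (x : ℝ) ≤ (N : ℝ) ^ C' →
      ∀ E : Finset ℕ, E ⊆ Icc 1 N → (N : ℝ) ^ (1 / 2 + η / 2) ≤ (#E : ℝ) → ∀ T : ℝ, 1 ≤ T →
        ∀ S : Finset ℕ, (∀ p ∈ S, p ∈ PP x ∧ ¬ Good E ((#E : ℝ) / T) p) →
        (#S : ℝ) ≤ B * T ^ (2 * R) * (x : ℝ) ^ (1 - η / 8) := by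
  classical
  set R : ℕ := ⌈2 * C'⌉₊ + 1 with hR
  have hR1 : 1 ≤ R := by omega
  have hR0 : (0 : ℝ) < R := by exact_mod_cast hR1
  obtain ⟨Cτ, hCτ, hτ⟩ := Pool.Agent.H510R2.divisor_bound (η / (8 * R)) (by positivity)
  set C1 : ℝ := max Cτ 1 with hC1
  have hC11 : 1 ≤ C1 := le_max_right _ _
  refine ⟨12 * C1 ^ R, R, by positivity, ?_⟩
  intro N x hN hx1 hx2 E hE hEc T hT S hS
  have hN0 : (0 : ℝ) < N := by exact_mod_cast (by omega : 0 < N)
  have hN1 : (1 : ℝ) < N := by exact_mod_cast (by omega : 1 < N)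
  have hx0 : (0 : ℝ) < x := lt_of_lt_of_le (by positivity) hx1
  set lN : ℝ := Real.log N with hlN
  set lx : ℝ := Real.log x with hlx
  have hlN0 : 0 < lN := Real.log_pos hN1
  have h1 : 1 / η * lN ≤ lx := by
    have := Real.log_le_log (by positivity) hx1
    rwa [Real.log_rpow hN0] at this
  have h2 : lx ≤ C' * lN := by
    have := Real.log_le_log hx0 hx2
    rwa [Real.log_rpow hN0] at this
  have h1' : lN ≤ η * lx := by
    rw [one_div_mul_eq_div, div_le_iff₀ hη] at h1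
    linarith
  have hlx0 : 0 < lx := by nlinarith
  -- r
  set t : ℝ := 2 * lx / ((1 + η / 2) * lN) with ht
  have ht0 : 0 < t := by positivity
  set r : ℕ := ⌈t⌉₊ with hr
  have hr1 : t ≤ r := Nat.le_ceil _
  have hr2 : (r : ℝ) < t + 1 := Nat.ceil_lt_add_one ht0.le
  have hrR : r ≤ R := by
    have h3 : t ≤ 2 * C' := by
      rw [ht, div_le_iff₀ (by positivity)]
      nlinarith [mul_pos hη hlN0, mul_nonneg (by linarith : (0:ℝ) ≤ C') (mul_pos hη hlN0).le]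
    calc r ≤ ⌈2 * C'⌉₊ := Nat.ceil_le_ceil h3
      _ ≤ R := by omega
  have hrR' : (r : ℝ) ≤ R := by exact_mod_cast hrR
  have hr0 : (0 : ℝ) ≤ r := Nat.cast_nonneg _
  have htl : t * ((1 + η / 2) * lN) = 2 * lx := by
    rw [ht]; field_simp
  -- the two inequalities between exponents
  have ea : (r : ℝ) * (1 / 2 - 3 * η / 8) * lN ≤ (1 - η / 8) * lx := by
    have h3 : (r : ℝ) * (1 / 2 - 3 * η / 8) * lN ≤ (t + 1) * (1 / 2 - 3 * η / 8) * lN := by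
      apply mul_le_mul_of_nonneg_right _ hlN0.le
      apply mul_le_mul_of_nonneg_right hr2.le
      linarith
    have h4 : t * lN ≤ 2 * lx := by
      have : t * lN * (η / 2) ≥ 0 := by positivity
      nlinarith
    have h5 : t * (1 / 2 - 3 * η / 8) * lN ≤ lx * (1 - 3 * η / 4) := by
      have : 0 ≤ 1 / 2 - 3 * η / 8 := by linarith
      nlinarith
    have h6 : (1 / 2 - 3 * η / 8) * lN ≤ 5 / 8 * (η * lx) := by
      have : (1 / 2 - 3 * η / 8) * lN ≤ 1 / 2 * lN := by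
        apply mul_le_mul_of_nonneg_right _ hlN0.le
        linarith
      have h7 : 0 < η * lx := by positivity
      linarith
    nlinarith
  have eb : (1 + η / 8) * lx ≤ (r : ℝ) * (1 / 2 + 3 * η / 8) * lN := by
    have h3 : t * (1 / 2 + 3 * η / 8) * lN ≤ (r : ℝ) * (1 / 2 + 3 * η / 8) * lN := by
      apply mul_le_mul_of_nonneg_right _ hlN0.le
      apply mul_le_mul_of_nonneg_right hr1
      linarith
    have h4 : t * lN = 2 * lx / (1 + η / 2) := by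
      rw [ht]; field_simp
    have h5 : (1 + η / 8) * lx ≤ t * (1 / 2 + 3 * η / 8) * lN := by
      have : t * (1 / 2 + 3 * η / 8) * lN = (1 / 2 + 3 * η / 8) * (2 * lx / (1 + η / 2)) := by
        rw [← h4]; ring
      rw [this, mul_div_assoc', le_div_iff₀ (by positivity)]
      have h6 : (1 + η / 8) * (1 + η / 2) ≤ 1 + 3 * η / 4 := by nlinarith
      nlinarith
    linarith
  -- the bound for cc
  set K : ℝ := C1 ^ R * (N : ℝ) ^ ((r : ℝ) * (η / 8)) with hK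
  have hK0 : 0 ≤ K := by positivity
  have hcc : ∀ n ∈ Icc 1 (N ^ r), (cc E r n : ℝ) ≤ K := by
    intro n hn
    rw [mem_Icc] at hn
    have hn1 : n ≠ 0 := by omega
    have hnR : (n : ℝ) ≤ (N : ℝ) ^ (r : ℝ) := by
      rw [Real.rpow_natCast]; exact_mod_cast hn.2
    have hn0 : (1 : ℝ) ≤ n := by exact_mod_cast hn.1
    have h3 : (cc E r n : ℝ) ≤ (n.divisors.card : ℝ) ^ r := by exact_mod_cast cc_leI E r n hn1
    have h4 : (n.divisors.card : ℝ) ≤ C1 * (N : ℝ) ^ ((r : ℝ) * (η / (8 * R))) := by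
      refine (hτ n hn.1).trans ?_
      have h5 : (n : ℝ) ^ (η / (8 * R)) ≤ (N : ℝ) ^ ((r : ℝ) * (η / (8 * R))) := by
        rw [Real.rpow_mul hN0.le]
        exact Real.rpow_le_rpow (by linarith) hnR (by positivity)
      exact mul_le_mul (le_max_left _ _) h5 (by positivity) (by positivity)
    have h6 : (n.divisors.card : ℝ) ^ r ≤ (C1 * (N : ℝ) ^ ((r : ℝ) * (η / (8 * R)))) ^ r :=
      pow_le_pow_left₀ (Nat.cast_nonneg _) h4 _
    refine h3.trans (h6.trans ?_)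
    rw [mul_pow, hK]
    apply mul_le_mul
    · exact pow_le_pow_right₀ hC11 hrR
    · rw [← Real.rpow_natCast, ← Real.rpow_mul hN0.le]
      apply Real.rpow_le_rpow_of_exponent_le hN1.le
      have : (r : ℝ) * (η / (8 * R)) * r = (r : ℝ) * (η / 8) * (r / R) := by
        field_simp
      rw [this]
      apply mul_le_of_le_one_right (by positivity)
      rw [div_le_one hR0]
      exact hrR'
    · positivity
    · positivity
  have hE0 : (0 : ℝ) < #E := lt_of_lt_of_le (by positivity) hEc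
  have hT0 : 0 < T := by linarith
  have hbad := badCountI E N x r ((#E : ℝ) / T) K hE (by positivity) hK0 hcc
  have hSb : (#S : ℝ) ≤ (#((PP x).filter (fun p => ¬ Good E ((#E : ℝ) / T) p)) : ℝ) := by
    have : S ⊆ (PP x).filter (fun p => ¬ Good E ((#E : ℝ) / T) p) := by
      intro p hp
      rw [mem_filter]
      exact hS p hp
    exact_mod_cast card_le_card this
  set b : ℝ := (#((PP x).filter (fun p => ¬ Good E ((#E : ℝ) / T) p)) : ℝ) with hb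
  have hb0 : 0 ≤ b := Nat.cast_nonneg _
  -- divide
  have h3 : b * (#E : ℝ) ^ r ≤ 6 * ((N : ℝ) ^ r + (x : ℝ) ^ 2) * K * T ^ (2 * r) := by
    have e1 : ((#E : ℝ) / T) ^ (2 * r) = (#E : ℝ) ^ r * (#E : ℝ) ^ r / T ^ (2 * r) := by
      rw [div_pow]
      congr 1
      rw [two_mul, pow_add]
    rw [e1] at hbad
    have hEr : (0 : ℝ) < (#E : ℝ) ^ r := by positivity
    have hTr : (0 : ℝ) < T ^ (2 * r) := by positivity
    have h4 : b * ((#E : ℝ) ^ r * (#E : ℝ) ^ r / T ^ (2 * r)) * (T ^ (2 * r) / (#E : ℝ) ^ r) ≤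
        6 * ((N : ℝ) ^ r + (x : ℝ) ^ 2) * (K * (#E : ℝ) ^ r) * (T ^ (2 * r) / (#E : ℝ) ^ r) :=
      mul_le_mul_of_nonneg_right hbad (by positivity)
    have e2 : b * ((#E : ℝ) ^ r * (#E : ℝ) ^ r / T ^ (2 * r)) * (T ^ (2 * r) / (#E : ℝ) ^ r) =
        b * (#E : ℝ) ^ r := by field_simp
    have e3 : 6 * ((N : ℝ) ^ r + (x : ℝ) ^ 2) * (K * (#E : ℝ) ^ r) * (T ^ (2 * r) / (#E : ℝ) ^ r) =
        6 * ((N : ℝ) ^ r + (x : ℝ) ^ 2) * K * T ^ (2 * r) := by field_simp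
    rwa [e2, e3] at h4
  have hTR : T ^ (2 * r) ≤ T ^ (2 * R) := pow_le_pow_right₀ hT (by omega)
  -- the power of N
  have hEr : (N : ℝ) ^ ((r : ℝ) * (1 / 2 + η / 2)) ≤ (#E : ℝ) ^ r := by
    have : (N : ℝ) ^ ((r : ℝ) * (1 / 2 + η / 2)) = ((N : ℝ) ^ (1 / 2 + η / 2)) ^ r := by
      rw [← Real.rpow_natCast, ← Real.rpow_mul hN0.le, mul_comm]
    rw [this]
    exact pow_le_pow_left₀ (by positivity) hEc _
  have h5 : b * (N : ℝ) ^ ((r : ℝ) * (1 / 2 + η / 2)) ≤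
      6 * ((N : ℝ) ^ r + (x : ℝ) ^ 2) * K * T ^ (2 * r) :=
    (mul_le_mul_of_nonneg_left hEr hb0).trans h3
  have hpos : (0 : ℝ) < (N : ℝ) ^ ((r : ℝ) * (1 / 2 + η / 2)) := by positivity
  have h6 : b ≤ 6 * ((N : ℝ) ^ r + (x : ℝ) ^ 2) * K * T ^ (2 * r) *
      (N : ℝ) ^ (-((r : ℝ) * (1 / 2 + η / 2))) := by
    rw [Real.rpow_neg hN0.le, ← div_eq_mul_inv, le_div_iff₀ hpos]
    exact h5
  have hNexp : ∀ s : ℝ, (N : ℝ) ^ s = Real.exp (s * lN) := fun s => by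
    rw [Real.rpow_def_of_pos hN0, mul_comm]
  have hxexp : ∀ s : ℝ, (x : ℝ) ^ s = Real.exp (s * lx) := fun s => by
    rw [Real.rpow_def_of_pos hx0, mul_comm]
  have h7 : ((N : ℝ) ^ r + (x : ℝ) ^ 2) * ((N : ℝ) ^ ((r : ℝ) * (η / 8)) *
      (N : ℝ) ^ (-((r : ℝ) * (1 / 2 + η / 2)))) ≤ 2 * (x : ℝ) ^ (1 - η / 8) := by
    have e1 : (N : ℝ) ^ ((r : ℝ) * (η / 8)) * (N : ℝ) ^ (-((r : ℝ) * (1 / 2 + η / 2))) =
        (N : ℝ) ^ (-((r : ℝ) * (1 / 2 + 3 * η / 8))) := by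
      rw [← Real.rpow_add hN0]; congr 1; ring
    have e2 : (N : ℝ) ^ r * (N : ℝ) ^ (-((r : ℝ) * (1 / 2 + 3 * η / 8))) =
        (N : ℝ) ^ ((r : ℝ) * (1 / 2 - 3 * η / 8)) := by
      rw [← Real.rpow_natCast, ← Real.rpow_add hN0]; congr 1; ring
    have e3 : (N : ℝ) ^ ((r : ℝ) * (1 / 2 - 3 * η / 8)) ≤ (x : ℝ) ^ (1 - η / 8) := by
      rw [hNexp, hxexp]
      exact Real.exp_le_exp.2 ea
    have e4 : (x : ℝ) ^ 2 * (N : ℝ) ^ (-((r : ℝ) * (1 / 2 + 3 * η / 8))) ≤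
        (x : ℝ) ^ (1 - η / 8) := by
      have : (x : ℝ) ^ 2 = (x : ℝ) ^ (2 : ℝ) := by norm_cast
      rw [this, hNexp, hxexp, hxexp, ← Real.exp_add]
      apply Real.exp_le_exp.2
      linarith
    rw [e1, add_mul, e2]
    linarith
  calc (#S : ℝ) ≤ b := hSb
    _ ≤ 6 * ((N : ℝ) ^ r + (x : ℝ) ^ 2) * K * T ^ (2 * r) *
      (N : ℝ) ^ (-((r : ℝ) * (1 / 2 + η / 2))) := h6
    _ = 6 * C1 ^ R * T ^ (2 * r) * (((N : ℝ) ^ r + (x : ℝ) ^ 2) * ((N : ℝ) ^ ((r : ℝ) * (η / 8)) *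
      (N : ℝ) ^ (-((r : ℝ) * (1 / 2 + η / 2))))) := by rw [hK]; ring
    _ ≤ 6 * C1 ^ R * T ^ (2 * R) * (2 * (x : ℝ) ^ (1 - η / 8)) := by
        apply mul_le_mul _ h7 (by positivity) (by positivity)
        exact mul_le_mul_of_nonneg_left hTR (by positivity)
    _ = 12 * C1 ^ R * T ^ (2 * R) * (x : ℝ) ^ (1 - η / 8) := by ring

end Pool.Agent.H771R4.SE
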