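import Mathlib
import Pool.Agent.H771R4.SE.LS
import Pool.Agent.H771R4.SE.Datum
import Pool.Agent.H386R2.Artin.Average
import Pool.Agent.H386R2.Artin.OmegaLarge
import Pool.Agent.H386R2.Artin.ArtinLim

set_option autoImplicit false

/-! # The average over a set of integers, and the exceptional set -/

namespace Pool.Agent.H771R4.SE

open Finset Filter Topology
open Pool.Agent.H386R2.Artin (PP Good hL gL card_PP ev1 ev3 ev5 tlog pi_lower sumH omegaLarge
  artinLim artinL artinC)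

/-- the number of primes `p ≤ x` with the condition of the datum -/
noncomputable def cntE (d : Dat) (n x : ℕ) : ℕ := by
  classical
  exact #((range (x + 1)).filter (fun p : ℕ => p.Prime ∧ d.Q p (n : ZMod p)))

open Classical in
lemma cntE_sum (d : Dat) (E : Finset ℕ) (x : ℕ) :
    ∑ q ∈ E, (cntE d q x : ℝ) =
      ∑ p ∈ PP x, (#(E.filter (fun q : ℕ => d.Q p ((q : ℕ) : ZMod p))) : ℝ) := by
  have h1 : ∀ q : ℕ, (cntE d q x : ℝ) =
      ∑ p ∈ PP x, if d.Q p ((q : ℕ) : ZMod p) then (1 : ℝ) else 0 := by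
    intro q
    unfold cntE PP
    rw [Finset.sum_boole, Finset.filter_filter]
  simp_rw [h1]
  rw [Finset.sum_comm]
  refine Finset.sum_congr rfl fun p _ => ?_
  rw [Finset.sum_boole]

lemma evB (B : ℝ) (k : ℕ) (η ε : ℝ) (hη : 0 < η) (hε : 0 < ε) (hB : 0 < B) :
    ∀ᶠ x : ℕ in atTop, B * (Real.log x) ^ k * (x : ℝ) ^ (1 - η) ≤ ε * (x / (2 * Real.log x)) := by
  have h1 := (isLittleO_log_rpow_rpow_atTop ((k : ℝ) + 1) hη).def
    (show (0 : ℝ) < ε / (2 * B) by positivity)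
  have h2 := (tendsto_natCast_atTop_atTop (R := ℝ)).eventually h1
  filter_upwards [h2, eventually_ge_atTop 3] with x h2 h3
  have hx : (3 : ℝ) ≤ x := by exact_mod_cast h3
  have hx0 : (0 : ℝ) < x := by linarith
  have hl : 0 < Real.log x := Real.log_pos (by linarith)
  rw [Real.norm_eq_abs, abs_of_pos (by positivity), Real.norm_eq_abs,
    abs_of_pos (Real.rpow_pos_of_pos hx0 _)] at h2
  have e0 : Real.log x ^ ((k : ℝ) + 1) = Real.log x ^ k * Real.log x := by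
    rw [Real.rpow_add hl, Real.rpow_one, Real.rpow_natCast]
  rw [e0] at h2
  have e1 : (x : ℝ) = (x : ℝ) ^ (1 - η) * (x : ℝ) ^ η := by
    rw [← Real.rpow_add hx0]; norm_num
  rw [mul_div_assoc', le_div_iff₀ (by positivity)]
  calc B * Real.log x ^ k * (x : ℝ) ^ (1 - η) * (2 * Real.log x)
      = 2 * B * (x : ℝ) ^ (1 - η) * (Real.log x ^ k * Real.log x) := by ring
    _ ≤ 2 * B * (x : ℝ) ^ (1 - η) * (ε / (2 * B) * (x : ℝ) ^ η) := by gcongr
    _ = ε * ((x : ℝ) ^ (1 - η) * (x : ℝ) ^ η) := by field_simp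
    _ = ε * x := by rw [← e1]

theorem avgE (d : Dat) (η : ℝ) (hη : 0 < η) (hη4 : η ≤ 1 / 4) (C' : ℝ) (hC' : 1 ≤ C') (ε : ℝ)
    (hε : 0 < ε) : ∃ x₀ : ℕ, ∀ x : ℕ, x₀ ≤ x → ∀ N : ℕ, 2 ≤ N → (N : ℝ) ^ (1 / η) ≤ x →
      (x : ℝ) ≤ (N : ℝ) ^ C' → ∀ E : Finset ℕ, E ⊆ Icc 1 N →
        (N : ℝ) ^ (1 / 2 + η / 2) ≤ (#E : ℝ) →
          |∑ q ∈ E, (cntE d q x : ℝ) - d.A * Nat.primeCounting x * #E| ≤
            ε * Nat.primeCounting x * #E := by
  classical
  obtain ⟨B, R, hB, hfew⟩ := fewBadI η hη hη4 C' hC'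
  obtain ⟨C, hC, h5⟩ := sumH
  obtain ⟨x₆, hx₆⟩ := omegaLarge
  obtain ⟨y₀, hy3, hy₀⟩ := pi_lower
  set ε' : ℝ := ε / 20 with hε'd
  have hε' : 0 < ε' := by positivity
  have hCL : ∀ᶠ L : ℕ in atTop, C / (L : ℝ) < ε' := by
    have : Tendsto (fun L : ℕ => C / (L : ℝ)) atTop (𝓝 0) :=
      tendsto_const_nhds.div_atTop tendsto_natCast_atTop_atTop
    exact this.eventually (gt_mem_nhds hε')
  obtain ⟨L, hL2, hL3⟩ := (hCL.and (eventually_ge_atTop 2)).exists
  obtain ⟨x₅, hx₅⟩ := h5 L (by omega)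
  have hG : ∀ᶠ x : ℕ in atTop, |(∑ p ∈ PP x, d.G p) / (Nat.primeCounting x : ℝ) - d.A| < ε' := by
    have := (Metric.tendsto_nhds.1 d.lim) ε' hε'
    simpa [Real.dist_eq] using this
  have hNb : ∀ᶠ x : ℕ in atTop, max (1 / ε') (d.p0 : ℝ) ≤ (x : ℝ) ^ (1 / (2 * C')) :=
    ((tendsto_rpow_atTop (by positivity)).comp tendsto_natCast_atTop_atTop).eventually_ge_atTop _
  have hev := (((((((evB B (2 * R) (η / 8) ε' (by positivity) hε' hB).and
    (ev1 (3 / 4) ε' (by norm_num) hε')).and (ev3 ε' hε')).and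
    hNb).and (ev5 ε' 1 (2 ^ L) hε' (by norm_num))).and hG).and
    (tlog.eventually_ge_atTop (max 3 (y₀ : ℝ)))).and
    (((eventually_ge_atTop x₅).and (eventually_ge_atTop x₆)).and (eventually_ge_atTop y₀))
  obtain ⟨x₀, hx₀⟩ := eventually_atTop.1 hev
  refine ⟨x₀, fun x hxx N hN hNx hxN E hE hEc => ?_⟩
  obtain ⟨⟨⟨⟨⟨⟨⟨e1, e2⟩, e3⟩, e4⟩, e5⟩, eG⟩, hX⟩, ⟨⟨hxx5, hxx6⟩, hxxy⟩⟩ := hx₀ x hxx
  have hP := hy₀ x hxxy
  set P : ℝ := (Nat.primeCounting x : ℝ) with hPd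
  set X : ℝ := Real.log x with hXd
  have hX3 : 3 ≤ X := le_trans (le_max_left _ _) hX
  have hX0 : 0 < X := by linarith
  have hX1 : 1 ≤ X := by linarith
  have hx3 : 3 ≤ x := le_trans hy3 hxxy
  have hx0 : (0 : ℝ) < x := by exact_mod_cast (by omega : 0 < x)
  have hx1 : (1 : ℝ) ≤ x := by exact_mod_cast (by omega : 1 ≤ x)
  have hP0 : 0 < P := lt_of_lt_of_le (by positivity) hP
  have hN0 : (0 : ℝ) < N := by exact_mod_cast (by omega : 0 < N)
  have hN1 : (1 : ℝ) ≤ N := by exact_mod_cast (by omega : 1 ≤ N)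
  set e : ℝ := (#E : ℝ) with hed
  have he0 : 0 < e := lt_of_lt_of_le (by positivity) hEc
  -- N is at most x ^ (1/4)
  have hNup : (N : ℝ) ≤ (x : ℝ) ^ (1 - 3 / 4 : ℝ) := by
    have h1 : ((N : ℝ) ^ (1 / η)) ^ η ≤ (x : ℝ) ^ η := Real.rpow_le_rpow (by positivity) hNx hη.le
    rw [← Real.rpow_mul hN0.le, one_div_mul_cancel hη.ne', Real.rpow_one] at h1
    refine h1.trans (Real.rpow_le_rpow_of_exponent_le hx1 ?_)
    norm_num
    linarith
  have hsq : (x : ℝ) ^ (1 / (2 * C')) ≤ (N : ℝ) ^ (1 / 2 : ℝ) := by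
    have h2 : (x : ℝ) ^ (1 / (2 * C')) ≤ ((N : ℝ) ^ C') ^ (1 / (2 * C')) :=
      Real.rpow_le_rpow hx0.le hxN (by positivity)
    refine h2.trans ?_
    rw [← Real.rpow_mul hN0.le]
    apply Real.rpow_le_rpow_of_exponent_le hN1
    have : C' * (1 / (2 * C')) = 1 / 2 := by field_simp
    rw [this]
  have hNp0 : d.p0 ≤ N := by
    have h1 : (d.p0 : ℝ) ≤ (N : ℝ) ^ (1 / 2 : ℝ) := (le_max_right _ _).trans (e4.trans hsq)
    have h2 : (N : ℝ) ^ (1 / 2 : ℝ) ≤ (N : ℝ) ^ (1 : ℝ) :=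
      Real.rpow_le_rpow_of_exponent_le hN1 (by norm_num)
    rw [Real.rpow_one] at h2
    exact_mod_cast h1.trans h2
  have hone : 1 ≤ ε' * e := by
    have h1 : (x : ℝ) ^ (1 / (2 * C')) ≤ (N : ℝ) ^ (1 / 2 + η / 2) :=
      hsq.trans (Real.rpow_le_rpow_of_exponent_le hN1 (by linarith))
    have h2 : 1 / ε' ≤ e := (le_max_left _ _).trans (e4.trans (h1.trans hEc))
    rw [div_le_iff₀ hε'] at h2
    linarith
  set M : ℝ := e / X with hMd
  have hM0 : 0 < M := by positivity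
  set W : ℝ := 5 * Real.log X with hWd
  have hW0 : 0 ≤ W := by
    have := Real.log_nonneg hX1
    positivity
  set F : ℕ → ℝ := fun p => (#(E.filter (fun q : ℕ => d.Q p ((q : ℕ) : ZMod p))) : ℝ) with hFd
  have hF0 : ∀ p, 0 ≤ F p := fun p => Nat.cast_nonneg _
  have hFe : ∀ p, F p ≤ e := fun p => by
    simp only [hFd, hed]
    exact_mod_cast card_filter_le _ _
  set Z1 : Finset ℕ := (PP x).filter (fun p => ¬ Good E M p) with hZ1
  set Z2 : Finset ℕ := (PP x).filter (fun p : ℕ => p ≤ N) with hZ2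
  set Z3 : Finset ℕ := (PP x).filter (fun p => W < ((p - 1).primeFactors.card : ℝ)) with hZ3
  have hZ1c : (#Z1 : ℝ) ≤ ε' * P := by
    have h1 := hfew N x hN hNx hxN E hE hEc X hX1 Z1 (fun p hp => by
      rw [hZ1, mem_filter] at hp
      exact hp)
    refine h1.trans (e1.trans ?_)
    gcongr
  have hZ2c : (#Z2 : ℝ) ≤ ε' * P := by
    have h1 : Z2 ⊆ Icc 1 N := by
      intro p hp
      rw [hZ2, mem_filter, PP, mem_filter] at hp
      rw [mem_Icc]
      exact ⟨hp.1.2.one_le, hp.2⟩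
    have h2 : (#Z2 : ℝ) ≤ N := by
      have := card_le_card h1
      rw [Nat.card_Icc, Nat.add_sub_cancel] at this
      exact_mod_cast this
    refine h2.trans (hNup.trans (e2.trans ?_))
    gcongr
  have hZ3c : (#Z3 : ℝ) ≤ ε' * P := by
    refine le_trans (hx₆ x hxx6) (le_trans e3 ?_)
    gcongr
  have hpt : ∀ p ∈ PP x, |F p - e * d.G p| ≤
      (if p ∈ Z1 then 2 * e else 0) + (if p ∈ Z2 then 2 * e else 0) +
        (if p ∈ Z3 then 2 * e else 0) +
        3 * (1 + 2 ^ L * M + W * M + e * hL L (p - 1)) := by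
    intro p hp
    have hg0 := d.G0 p
    have hg1 := d.G1 p
    have hh0 : 0 ≤ hL L (p - 1) := Finset.sum_nonneg fun l _ => by positivity
    have hrest : 0 ≤ 3 * (1 + 2 ^ L * M + W * M + e * hL L (p - 1)) := by positivity
    have htriv : |F p - e * d.G p| ≤ 2 * e := by
      have f0 := hF0 p
      have fe := hFe p
      have g1 : 0 ≤ e * d.G p := mul_nonneg he0.le hg0
      have g2 : e * d.G p ≤ e * 2 := mul_le_mul_of_nonneg_left hg1 he0.le
      rw [abs_le]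
      constructor
      · linarith
      · linarith
    have i1 : 0 ≤ (if p ∈ Z1 then 2 * e else 0) := by split_ifs <;> linarith
    have i2 : 0 ≤ (if p ∈ Z2 then 2 * e else 0) := by split_ifs <;> linarith
    have i3 : 0 ≤ (if p ∈ Z3 then 2 * e else 0) := by split_ifs <;> linarith
    by_cases c1 : p ∈ Z1
    · rw [if_pos c1]; linarith
    by_cases c2 : p ∈ Z2
    · rw [if_pos c2]; linarith
    by_cases c3 : p ∈ Z3
    · rw [if_pos c3]; linarith
    have hgood : Good E M p := by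
      by_contra hcon; exact c1 (mem_filter.2 ⟨hp, hcon⟩)
    have hpN : N < p := by
      by_contra hcon; exact c2 (mem_filter.2 ⟨hp, not_lt.1 hcon⟩)
    have hom : ((p - 1).primeFactors.card : ℝ) ≤ W := by
      by_contra hcon; exact c3 (mem_filter.2 ⟨hp, not_le.1 hcon⟩)
    have hpp : p.Prime := (mem_filter.1 hp).2
    have hE0 : ∀ q ∈ E, ((q : ℕ) : ZMod p) ≠ 0 := by
      intro q hq h
      rw [ZMod.natCast_eq_zero_iff] at h
      have h1 := mem_Icc.1 (hE hq)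
      have := Nat.le_of_dvd (by omega) h
      omega
    have := d.loc p hpp (by omega) E M L hL3 hE0 hM0.le hgood
    refine le_trans (le_trans (le_of_eq ?_) this) ?_
    · simp only [hFd, hed]
    have h8 : ((p - 1).primeFactors.card : ℝ) * M ≤ W * M := by gcongr
    have h9 : 0 ≤ 2 ^ L * M := by positivity
    have h10 : 0 ≤ W * M := by positivity
    have h11 : 0 ≤ e * hL L (p - 1) := by positivity
    linarith
  have hsum : |∑ p ∈ PP x, F p - e * ∑ p ∈ PP x, d.G p| ≤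
      3 * (2 * (ε' * P * e)) + 3 * (P * (1 + 2 ^ L * M + W * M)) + 3 * (e * (C / L * P)) := by
    have hs1 : ∑ p ∈ PP x, F p - e * ∑ p ∈ PP x, d.G p =
        ∑ p ∈ PP x, (F p - e * d.G p) := by
      rw [Finset.sum_sub_distrib, Finset.mul_sum]
    rw [hs1]
    refine le_trans (Finset.abs_sum_le_sum_abs _ _) (le_trans (Finset.sum_le_sum hpt) ?_)
    rw [Finset.sum_add_distrib, Finset.sum_add_distrib, Finset.sum_add_distrib, ← Finset.mul_sum,
      Finset.sum_add_distrib]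
    have hsub : ∀ Z : Finset ℕ, Z ⊆ PP x →
        ∑ p ∈ PP x, (if p ∈ Z then 2 * e else 0) = #Z * (2 * e) := by
      intro Z hZ
      rw [← Finset.sum_filter, Finset.sum_const, nsmul_eq_mul, Finset.filter_mem_eq_inter,
        Finset.inter_eq_right.2 hZ]
    rw [hsub Z1 (filter_subset _ _), hsub Z2 (filter_subset _ _), hsub Z3 (filter_subset _ _),
      Finset.sum_const, nsmul_eq_mul, card_PP, ← hPd, ← Finset.mul_sum]
    have hh := hx₅ x hxx5
    have g1 : (#Z1 : ℝ) * (2 * e) ≤ ε' * P * (2 * e) := by gcongr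
    have g2 : (#Z2 : ℝ) * (2 * e) ≤ ε' * P * (2 * e) := by gcongr
    have g3 : (#Z3 : ℝ) * (2 * e) ≤ ε' * P * (2 * e) := by gcongr
    have g4 : e * ∑ p ∈ PP x, hL L (p - 1) ≤ e * (C / L * P) := by gcongr
    linarith
  rw [cntE_sum d E x]
  change |∑ p ∈ PP x, F p - d.A * P * e| ≤ ε * P * e
  have hMs : P * (1 + 2 ^ L * M + W * M) ≤ 2 * (ε' * P * e) := by
    have k1 : 2 ^ L * M + W * M = e * ((2 ^ L + W) / X) := by
      rw [hMd]; ring
    rw [Real.rpow_one] at e5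
    have k2 : e * ((2 ^ L + W) / X) ≤ e * ε' := by gcongr
    have k3 : 1 + 2 ^ L * M + W * M ≤ 2 * (ε' * e) := by linarith
    calc P * (1 + 2 ^ L * M + W * M) ≤ P * (2 * (ε' * e)) := by gcongr
      _ = 2 * (ε' * P * e) := by ring
  have hCLP : e * (C / L * P) ≤ ε' * P * e := by
    have : C / (L : ℝ) * P ≤ ε' * P := by gcongr
    nlinarith
  have hGP : |e * ∑ p ∈ PP x, d.G p - d.A * P * e| ≤ ε' * P * e := by
    have k1 : e * ∑ p ∈ PP x, d.G p - d.A * P * e =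
        ((∑ p ∈ PP x, d.G p) / P - d.A) * (P * e) := by
      field_simp
    rw [k1, abs_mul, abs_of_pos (by positivity : 0 < P * e)]
    calc |(∑ p ∈ PP x, d.G p) / P - d.A| * (P * e) ≤ ε' * (P * e) := by gcongr
      _ = ε' * P * e := by ring
  have htri : |∑ p ∈ PP x, F p - d.A * P * e| ≤
      |∑ p ∈ PP x, F p - e * ∑ p ∈ PP x, d.G p| +
      |e * ∑ p ∈ PP x, d.G p - d.A * P * e| := abs_sub_le _ _ _
  have hfin : 16 * (ε' * P * e) ≤ ε * P * e := by
    have k1 : ε = 20 * ε' := by linarith [hε'd]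
    have k2 : 0 ≤ ε' * P * e := mul_nonneg (mul_nonneg hε'.le hP0.le) he0.le
    have k3 : ε * P * e = 20 * (ε' * P * e) := by
      calc ε * P * e = (20 * ε') * P * e := by rw [← k1]
        _ = 20 * (ε' * P * e) := by ring
    linarith
  linarith

open Classical in
/-- the exceptional set -/
theorem excE (η : ℝ) (hη : 0 < η) : ∃ C : ℝ, 1 ≤ C ∧ ∀ (d : Dat) (ε : ℝ), 0 < ε → ∀ C' : ℝ,
    ∃ x₀ : ℕ, ∀ x : ℕ, x₀ ≤ x → ∀ N : ℕ, (N : ℝ) ^ C ≤ x → (x : ℝ) ≤ (N : ℝ) ^ C' →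
      (#((Icc 1 N).filter (fun n : ℕ => ε * (Nat.primeCounting x : ℝ) <
        |(cntE d n x : ℝ) - d.A * (Nat.primeCounting x : ℝ)|)) : ℝ) ≤
        (N : ℝ) ^ (1 / 2 + η) := by
  set η' : ℝ := min η (1 / 4) with hη'
  have hη0 : 0 < η' := lt_min hη (by norm_num)
  have hη4 : η' ≤ 1 / 4 := min_le_right _ _
  have hηη : η' ≤ η := min_le_left _ _
  refine ⟨1 / η', ?_, fun d ε hε C' => ?_⟩
  · rw [le_div_iff₀ hη0]; linarith
  set C'' : ℝ := max C' 1 with hC''
  have hC1 : 1 ≤ C'' := le_max_right _ _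
  obtain ⟨x₁, hx₁⟩ := avgE d η' hη0 hη4 C'' hC1 (ε / 2) (by positivity)
  have hNb : ∀ᶠ x : ℕ in atTop, (2 : ℝ) ≤ (x : ℝ) ^ (η' / (2 * C'')) :=
    ((tendsto_rpow_atTop (by positivity)).comp tendsto_natCast_atTop_atTop).eventually_ge_atTop _
  obtain ⟨x₂, hx₂⟩ := eventually_atTop.1 hNb
  refine ⟨max (max x₁ x₂) 2, fun x hx N hNx hxN => ?_⟩
  have hxx1 : x₁ ≤ x := (le_max_left _ _).trans ((le_max_left _ _).trans hx)
  have hxx2 : x₂ ≤ x := (le_max_right _ _).trans ((le_max_left _ _).trans hx)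
  have hx2 : 2 ≤ x := (le_max_right _ _).trans hx
  have hx2' : (2 : ℝ) ≤ x := by exact_mod_cast hx2
  have hN2 : 2 ≤ N := by
    by_contra hcon
    have h01 : N = 0 ∨ N = 1 := by omega
    rcases h01 with h | h
    · rw [h] at hxN
      push_cast at hxN
      rcases eq_or_ne C' 0 with h0 | h0
      · rw [h0, Real.rpow_zero] at hxN; linarith
      · rw [Real.zero_rpow h0] at hxN; linarith
    · rw [h] at hxN
      push_cast at hxN
      rw [Real.one_rpow] at hxN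
      linarith
  have hN0 : (0 : ℝ) < N := by exact_mod_cast (by omega : 0 < N)
  have hN1 : (1 : ℝ) ≤ N := by exact_mod_cast (by omega : 1 ≤ N)
  have hxN' : (x : ℝ) ≤ (N : ℝ) ^ C'' :=
    hxN.trans (Real.rpow_le_rpow_of_exponent_le hN1 (le_max_left _ _))
  set P : ℝ := (Nat.primeCounting x : ℝ) with hPd
  have hP0 : 0 < P := by
    have h1 : Nat.primeCounting 2 ≤ Nat.primeCounting x := Nat.monotone_primeCounting hx2
    have h2 : Nat.primeCounting 2 = 1 := by decide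
    have : 0 < Nat.primeCounting x := by omega
    rw [hPd]
    exact_mod_cast this
  have side : ∀ s : ℝ, (s = 1 ∨ s = -1) →
      (#((Icc 1 N).filter (fun n : ℕ => ε * P < s * ((cntE d n x : ℝ) - d.A * P))) : ℝ) ≤
        (N : ℝ) ^ (1 / 2 + η' / 2) := by
    intro s hs
    by_contra hcon
    push Not at hcon
    set E := (Icc 1 N).filter (fun n : ℕ => ε * P < s * ((cntE d n x : ℝ) - d.A * P)) with hEd
    have hav := hx₁ x hxx1 N hN2 hNx hxN' E (filter_subset _ _) hcon.le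
    have he0 : (0 : ℝ) < #E := lt_trans (by positivity) hcon
    have hlow : ε * P * #E ≤ s * (∑ q ∈ E, (cntE d q x : ℝ) - d.A * P * #E) := by
      have h1 : s * (∑ q ∈ E, (cntE d q x : ℝ) - d.A * P * #E) =
          ∑ q ∈ E, (s * ((cntE d q x : ℝ) - d.A * P)) := by
        rw [← Finset.mul_sum, Finset.sum_sub_distrib, Finset.sum_const, nsmul_eq_mul]
        ring
      rw [h1]
      have h3 : ∑ _q ∈ E, ε * P ≤ ∑ q ∈ E, (s * ((cntE d q x : ℝ) - d.A * P)) := by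
        apply Finset.sum_le_sum
        intro q hq
        rw [hEd, mem_filter] at hq
        exact hq.2.le
      rw [Finset.sum_const, nsmul_eq_mul] at h3
      linarith
    have hup : s * (∑ q ∈ E, (cntE d q x : ℝ) - d.A * P * #E) ≤ ε / 2 * P * #E := by
      rcases hs with hs | hs
      · rw [hs, one_mul]; exact le_trans (le_abs_self _) hav
      · rw [hs]
        have := neg_abs_le (∑ q ∈ E, (cntE d q x : ℝ) - d.A * P * #E)
        linarith
    have hpos : 0 < ε * P * #E := by positivity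
    have : ε / 2 * P * #E = (ε * P * #E) / 2 := by ring
    linarith
  have h1 := side 1 (Or.inl rfl)
  have h2 := side (-1) (Or.inr rfl)
  have hsub : (Icc 1 N).filter (fun n : ℕ => ε * P < |(cntE d n x : ℝ) - d.A * P|) ⊆
      (Icc 1 N).filter (fun n : ℕ => ε * P < 1 * ((cntE d n x : ℝ) - d.A * P)) ∪
      (Icc 1 N).filter (fun n : ℕ => ε * P < (-1) * ((cntE d n x : ℝ) - d.A * P)) := by
    intro q hq
    rw [mem_filter] at hq
    rw [mem_union, mem_filter, mem_filter]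
    rcases lt_abs.1 hq.2 with h3 | h3
    · left; exact ⟨hq.1, by linarith⟩
    · right; exact ⟨hq.1, by linarith⟩
  have h3 := (card_le_card hsub).trans (card_union_le _ _)
  have h4 : (#((Icc 1 N).filter (fun n : ℕ => ε * P < |(cntE d n x : ℝ) - d.A * P|)) : ℝ) ≤
      2 * (N : ℝ) ^ (1 / 2 + η' / 2) := by
    have : (#((Icc 1 N).filter (fun n : ℕ => ε * P < |(cntE d n x : ℝ) - d.A * P|)) : ℝ) ≤
      (#((Icc 1 N).filter (fun n : ℕ => ε * P < 1 * ((cntE d n x : ℝ) - d.A * P))) : ℝ) +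
      (#((Icc 1 N).filter (fun n : ℕ => ε * P < (-1) * ((cntE d n x : ℝ) - d.A * P))) : ℝ) := by
      exact_mod_cast h3
    linarith
  have h5 : (2 : ℝ) ≤ (N : ℝ) ^ (η' / 2) := by
    refine (hx₂ x hxx2).trans ?_
    have h6 : (x : ℝ) ^ (η' / (2 * C'')) ≤ ((N : ℝ) ^ C'') ^ (η' / (2 * C'')) :=
      Real.rpow_le_rpow (by linarith) hxN' (by positivity)
    refine h6.trans (le_of_eq ?_)
    rw [← Real.rpow_mul hN0.le]
    congr 1
    field_simp
  calc _ ≤ 2 * (N : ℝ) ^ (1 / 2 + η' / 2) := h4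
    _ ≤ (N : ℝ) ^ (η' / 2) * (N : ℝ) ^ (1 / 2 + η' / 2) := by gcongr
    _ = (N : ℝ) ^ (1 / 2 + η') := by
        rw [← Real.rpow_add hN0]; congr 1; ring
    _ ≤ (N : ℝ) ^ (1 / 2 + η) := Real.rpow_le_rpow_of_exponent_le hN1 (by linarith)

end Pool.Agent.H771R4.SE
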