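import Mathlib
import Pool.Agent.H771R4.SE.Avg2
import Pool.Agent.H730R2.AA.Grid

set_option autoImplicit false

/-! # All `x` in a long range at the same time -/

namespace Pool.Agent.H771R4.SE

open Finset Filter Topology
open Pool.Agent.H730R2.AA.Grid (g g_ge g_one_le g_step g_mono interp pi_ratio)

lemma cntE_mono (d : Dat) (n : ℕ) {x y : ℕ} (h : x ≤ y) : cntE d n x ≤ cntE d n y := by
  classical
  unfold cntE
  refine card_le_card (filter_subset_filter _ ?_)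
  intro a ha
  rw [mem_range] at ha ⊢
  omega

open Classical in
/-- the integers that are exceptional for some `x` of the range -/
noncomputable def badX (d : Dat) (ε C C' : ℝ) (N : ℕ) : Finset ℕ :=
  (Icc 1 N).filter (fun n : ℕ => ∃ x : ℕ, (N : ℝ) ^ C ≤ x ∧ (x : ℝ) ≤ (N : ℝ) ^ C' ∧
    ε * (Nat.primeCounting x : ℝ) < |(cntE d n x : ℝ) - d.A * (Nat.primeCounting x : ℝ)|)

theorem allX (η : ℝ) (hη : 0 < η) : ∃ C : ℝ, 1 ≤ C ∧ ∀ (d : Dat) (ε : ℝ), 0 < ε → ∀ C' : ℝ,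
    ∃ N₀ : ℕ, ∀ N : ℕ, N₀ ≤ N → (#(badX d ε C C' N) : ℝ) ≤ (N : ℝ) ^ (1 / 2 + η) := by
  classical
  obtain ⟨C0, hC0, hexc'⟩ := excE (η / 2) (by positivity)
  refine ⟨C0 + 1, by linarith, fun d ε hε C' => ?_⟩
  have hd := abs_nonneg d.A
  set e : ℝ := min 1 (ε / (|d.A| + 3)) with hedef
  have he : 0 < e := lt_min one_pos (by positivity)
  have he1 : e ≤ 1 := min_le_left _ _
  have hee : (|d.A| + 3) * e ≤ ε := by
    have : e ≤ ε / (|d.A| + 3) := min_le_right _ _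
    rw [le_div_iff₀ (by positivity)] at this
    linarith
  have hexc := hexc' d e he
  obtain ⟨ρ, hρ, hρ2, X, hX2, hpi⟩ := pi_ratio e he
  have hρρ : 0 < ρ ^ 2 - ρ := by nlinarith
  have hlρ : 0 < Real.log ρ := Real.log_pos hρ
  have hρ4 : ρ ^ 2 ≤ 4 := by nlinarith
  set C2 : ℝ := max (C' + 1) 1 with hC2
  have hC21 : 1 ≤ C2 := le_max_right _ _
  obtain ⟨x₀, hx₀⟩ := hexc C2
  -- the number of grid points
  have hJev : ∀ᶠ N : ℕ in atTop, C2 * Real.log N / Real.log ρ + 1 ≤ (N : ℝ) ^ (η / 2) := by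
    have h1 := (isLittleO_log_rpow_atTop (show 0 < η / 2 by positivity)).def
      (show (0 : ℝ) < Real.log ρ / (2 * C2) by positivity)
    have h2 := (tendsto_natCast_atTop_atTop (R := ℝ)).eventually h1
    have h3 : ∀ᶠ N : ℕ in atTop, (2 : ℝ) ≤ (N : ℝ) ^ (η / 2) :=
      ((tendsto_rpow_atTop (by positivity)).comp tendsto_natCast_atTop_atTop).eventually_ge_atTop _
    filter_upwards [h2, h3, eventually_ge_atTop 2] with N h2 h3 h4
    have hN : (2 : ℝ) ≤ N := by exact_mod_cast h4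
    have hl : 0 < Real.log N := Real.log_pos (by linarith)
    rw [Real.norm_eq_abs, abs_of_pos hl, Real.norm_eq_abs, abs_of_pos (by positivity)] at h2
    have h5 : C2 * Real.log N / Real.log ρ ≤ (N : ℝ) ^ (η / 2) / 2 := by
      rw [div_le_iff₀ hlρ]
      calc C2 * Real.log N ≤ C2 * (Real.log ρ / (2 * C2) * (N : ℝ) ^ (η / 2)) := by gcongr
        _ = (N : ℝ) ^ (η / 2) / 2 * Real.log ρ := by field_simp
    linarith
  have hbig : ∀ᶠ N : ℕ in atTop, ((x₀ : ℝ) + X + 1 / (ρ ^ 2 - ρ)) + 4 ≤ (N : ℝ) :=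
    (tendsto_natCast_atTop_atTop (R := ℝ)).eventually_ge_atTop _
  obtain ⟨N₀, hN₀⟩ := eventually_atTop.1 (hJev.and hbig)
  refine ⟨N₀, fun N hN => ?_⟩
  obtain ⟨hJ, hB⟩ := hN₀ N hN
  have hq : 0 < 1 / (ρ ^ 2 - ρ) := by positivity
  have hx0nn : (0 : ℝ) ≤ x₀ := Nat.cast_nonneg _
  have hXnn : (0 : ℝ) ≤ X := Nat.cast_nonneg _
  have hN4 : (4 : ℝ) ≤ N := by linarith
  have hN0 : (0 : ℝ) < N := by linarith
  have hN1 : (1 : ℝ) ≤ N := by linarith
  have hNC0 : (N : ℝ) ≤ (N : ℝ) ^ C0 := by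
    calc (N : ℝ) = (N : ℝ) ^ (1 : ℝ) := (Real.rpow_one _).symm
      _ ≤ _ := Real.rpow_le_rpow_of_exponent_le hN1 hC0
  set J : ℕ := ⌊C2 * Real.log N / Real.log ρ⌋₊ + 1 with hJdef
  have hJr : (J : ℝ) ≤ (N : ℝ) ^ (η / 2) := by
    refine le_trans ?_ hJ
    rw [hJdef]
    push_cast
    have : (⌊C2 * Real.log N / Real.log ρ⌋₊ : ℝ) ≤ C2 * Real.log N / Real.log ρ :=
      Nat.floor_le (div_nonneg (mul_nonneg (by linarith) (Real.log_nonneg hN1)) hlρ.le)
    linarith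
  -- the exceptional set at one grid point
  set Bd : ℕ → Finset ℕ := fun j => if (N : ℝ) ^ C0 ≤ (g ρ j : ℝ) ∧ (g ρ j : ℝ) ≤ (N : ℝ) ^ C2 then
    (Icc 1 N).filter (fun n : ℕ => e * (Nat.primeCounting (g ρ j) : ℝ) <
        |(cntE d n (g ρ j) : ℝ) - d.A * (Nat.primeCounting (g ρ j) : ℝ)|) else ∅ with hBd
  have hBdc : ∀ j, (#(Bd j) : ℝ) ≤ (N : ℝ) ^ (1 / 2 + η / 2) := by
    intro j
    simp only [hBd]
    split_ifs with h
    · have hgx : x₀ ≤ g ρ j := by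
        have : (x₀ : ℝ) ≤ g ρ j := le_trans (by linarith) (hNC0.trans h.1)
        exact_mod_cast this
      exact hx₀ (g ρ j) hgx N h.1 h.2
    · rw [card_empty, Nat.cast_zero]
      positivity
  have hincl : badX d ε (C0 + 1) C' N ⊆ (range J).biUnion Bd := by
    intro n hn
    unfold badX at hn
    rw [mem_filter] at hn
    obtain ⟨hn, x, hxN, hxN', hx⟩ := hn
    have hNC : (N : ℝ) ^ C0 * 4 ≤ x := by
      refine le_trans ?_ hxN
      rw [Real.rpow_add hN0, Real.rpow_one]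
      gcongr
    have hx1 : (1 : ℝ) ≤ x := by
      have : (1 : ℝ) ≤ (N : ℝ) ^ C0 := hN1.trans hNC0
      linarith
    obtain ⟨j, hj1, hj2⟩ := exists_nat_pow_near hx1 hρ
    have hgx : g ρ j ≤ x := Nat.ceil_le.2 hj1
    have hxg : x ≤ g ρ (j + 1) := by
      have : (x : ℝ) ≤ g ρ (j + 1) := hj2.le.trans (g_ge _)
      exact_mod_cast this
    have hgx' : (g ρ j : ℝ) ≤ x := by exact_mod_cast hgx
    have hxg' : (x : ℝ) ≤ g ρ (j + 1) := by exact_mod_cast hxg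
    have hgj1 : (x : ℝ) ≤ ρ * g ρ j := by
      calc (x : ℝ) ≤ ρ ^ (j + 1) := hj2.le
        _ = ρ * ρ ^ j := by rw [pow_succ, mul_comm]
        _ ≤ ρ * g ρ j := by
          have := g_ge (ρ := ρ) j
          gcongr
    have hgjlow : (N : ℝ) ^ C0 ≤ g ρ j := by
      have h0 : (0 : ℝ) ≤ g ρ j := Nat.cast_nonneg _
      have : (x : ℝ) ≤ 4 * g ρ j := hgj1.trans (by nlinarith)
      linarith
    have hgN : (N : ℝ) ≤ g ρ j := hNC0.trans hgjlow
    have hstep : (g ρ (j + 1) : ℝ) ≤ ρ ^ 2 * g ρ j := by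
      refine g_step ?_ hρ
      have h1 : 1 / (ρ ^ 2 - ρ) ≤ g ρ j := by linarith
      rw [div_le_iff₀ hρρ] at h1
      linarith
    have hxC2 : (x : ℝ) * 4 ≤ (N : ℝ) ^ C2 := by
      calc (x : ℝ) * 4 ≤ (N : ℝ) ^ C' * N := by gcongr
        _ = (N : ℝ) ^ (C' + 1) := by rw [Real.rpow_add hN0, Real.rpow_one]
        _ ≤ (N : ℝ) ^ C2 := Real.rpow_le_rpow_of_exponent_le hN1 (le_max_left _ _)
    have hgjup : (g ρ j : ℝ) ≤ (N : ℝ) ^ C2 := by linarith
    have hgj1up : (g ρ (j + 1) : ℝ) ≤ (N : ℝ) ^ C2 := by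
      have h1 : ρ ^ 2 * (g ρ j : ℝ) ≤ 4 * x := by gcongr
      linarith
    have hgj1low : (N : ℝ) ^ C0 ≤ g ρ (j + 1) := hgjlow.trans (by
      exact_mod_cast g_mono hρ (Nat.le_succ j))
    have hidx : ∀ i : ℕ, (g ρ i : ℝ) ≤ (N : ℝ) ^ C2 → i < J := by
      intro i hi
      have h1 : ρ ^ i ≤ (N : ℝ) ^ C2 := (g_ge i).trans hi
      have h2 := Real.log_le_log (by positivity) h1
      rw [Real.log_pow, Real.log_rpow hN0] at h2
      have h3 : (i : ℝ) ≤ C2 * Real.log N / Real.log ρ := by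
        rw [le_div_iff₀ hlρ]
        exact h2
      have h4 : i ≤ ⌊C2 * Real.log N / Real.log ρ⌋₊ := Nat.le_floor h3
      omega
    rw [mem_biUnion]
    by_contra hcon
    push Not at hcon
    have hn0 := hcon j (mem_range.2 (hidx j hgjup))
    have hn1 := hcon (j + 1) (mem_range.2 (hidx (j + 1) hgj1up))
    simp only [hBd] at hn0 hn1
    rw [if_pos ⟨hgjlow, hgjup⟩, mem_filter, not_and, not_lt] at hn0
    rw [if_pos ⟨hgj1low, hgj1up⟩, mem_filter, not_and, not_lt] at hn1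
    have ha0 := hn0 hn
    have ha1 := hn1 hn
    have hXg : X ≤ g ρ j := by
      have : (X : ℝ) ≤ g ρ j := le_trans (by linarith) hgN
      exact_mod_cast this
    have hpij : (Nat.primeCounting (g ρ (j + 1)) : ℝ) ≤ (1 + e) * Nat.primeCounting (g ρ j) :=
      hpi _ _ hXg (hgx.trans hxg) hstep
    have hfin := interp (δ := d.A) (e := e) (P0 := (Nat.primeCounting (g ρ j) : ℝ))
      (P := (Nat.primeCounting x : ℝ)) (P1 := (Nat.primeCounting (g ρ (j + 1)) : ℝ))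
      (A0 := (cntE d n (g ρ j) : ℝ)) (A := (cntE d n x : ℝ))
      (A1 := (cntE d n (g ρ (j + 1)) : ℝ)) he he1 (Nat.cast_nonneg _)
      (by exact_mod_cast Nat.monotone_primeCounting hgx)
      (by exact_mod_cast Nat.monotone_primeCounting hxg) hpij
      (by exact_mod_cast cntE_mono d n hgx) (by exact_mod_cast cntE_mono d n hxg) ha0 ha1
    have hlast : (|d.A| + 3) * e * (Nat.primeCounting x : ℝ) ≤
        ε * (Nat.primeCounting x : ℝ) := by
      gcongr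
    linarith
  have h1 : (#(badX d ε (C0 + 1) C' N) : ℝ) ≤ ∑ j ∈ range J, (#(Bd j) : ℝ) := by
    exact_mod_cast (card_le_card hincl).trans card_biUnion_le
  calc (#(badX d ε (C0 + 1) C' N) : ℝ) ≤ ∑ j ∈ range J, (#(Bd j) : ℝ) := h1
    _ ≤ ∑ _j ∈ range J, (N : ℝ) ^ (1 / 2 + η / 2) := Finset.sum_le_sum fun j _ => hBdc j
    _ = J * (N : ℝ) ^ (1 / 2 + η / 2) := by rw [Finset.sum_const, nsmul_eq_mul, card_range]
    _ ≤ (N : ℝ) ^ (η / 2) * (N : ℝ) ^ (1 / 2 + η / 2) := by gcongr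
    _ = (N : ℝ) ^ (1 / 2 + η) := by
      rw [← Real.rpow_add hN0]; congr 1; ring

end Pool.Agent.H771R4.SE
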