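import Mathlib
import Pool.Agent.H771R4.SE.LS

set_option autoImplicit false

/-! # Few small divisors of a large integer, by Rankin's device -/

namespace Pool.Agent.H771R4.SE

open Finset Filter Topology
open Pool.Agent.H386R2.Artin.T1 (cc)

/-- `n ↦ n ^ (-σ)` -/
noncomputable def negpow (σ : ℝ) : ℕ →* ℝ where
  toFun n := (n : ℝ) ^ (-σ)
  map_one' := by simp
  map_mul' m n := by
    push_cast
    rw [Real.mul_rpow (Nat.cast_nonneg _) (Nat.cast_nonneg _)]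

lemma sum_div_le (σ : ℝ) (hσ : 0 < σ) (n : ℕ) (hn : n ≠ 0) :
    ∑ d ∈ n.divisors, (d : ℝ) ^ (-σ) ≤ ∏ p ∈ n.primeFactors, (1 - (p : ℝ) ^ (-σ))⁻¹ := by
  classical
  have hlt : ∀ {p : ℕ}, p.Prime → ‖negpow σ p‖ < 1 := by
    intro p hp
    change ‖(p : ℝ) ^ (-σ)‖ < 1
    have hp0 : (0 : ℝ) < p := by exact_mod_cast hp.pos
    rw [Real.norm_eq_abs, abs_of_pos (by positivity)]
    exact Real.rpow_lt_one_of_one_lt_of_neg (by exact_mod_cast hp.one_lt) (by linarith)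
  obtain ⟨_, h2⟩ := EulerProduct.summable_and_hasSum_factoredNumbers_prod_filter_prime_geometric
    hlt n.primeFactors
  have h3 : (n.primeFactors.filter Nat.Prime) = n.primeFactors :=
    filter_true_of_mem (fun p hp => Nat.prime_of_mem_primeFactors hp)
  rw [h3] at h2
  have h4 : ∀ d ∈ n.divisors, d ∈ Nat.factoredNumbers n.primeFactors := by
    intro d hd
    rw [Nat.mem_divisors] at hd
    exact Nat.mem_factoredNumbers_of_dvd
      (Nat.mem_factoredNumbers_of_primeFactors_subset hn (Finset.Subset.refl _)) hd.1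
  have h5 := sum_le_hasSum (n.divisors.subtype (· ∈ Nat.factoredNumbers n.primeFactors))
    (fun i _ => by
      change (0 : ℝ) ≤ ((i : ℕ) : ℝ) ^ (-σ)
      positivity) h2
  rw [Finset.sum_subtype_of_mem (fun m : ℕ => negpow σ m) h4] at h5
  exact h5

lemma card_primeFactors_log (n : ℕ) (hn : n ≠ 0) :
    (#n.primeFactors : ℝ) * Real.log 2 ≤ Real.log n := by
  have h1 : 2 ^ #n.primeFactors ≤ n := by
    calc 2 ^ #n.primeFactors = ∏ _p ∈ n.primeFactors, 2 := by rw [prod_const]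
      _ ≤ ∏ p ∈ n.primeFactors, p := prod_le_prod' fun p hp =>
        (Nat.prime_of_mem_primeFactors hp).two_le
      _ ≤ n := Nat.le_of_dvd (Nat.pos_of_ne_zero hn) (Nat.prod_primeFactors_dvd n)
  have h2 : Real.log ((2 : ℝ) ^ #n.primeFactors) ≤ Real.log n :=
    Real.log_le_log (by positivity) (by exact_mod_cast h1)
  rwa [Real.log_pow] at h2

lemma prod_le_exp (σ : ℝ) (hσ : 0 < σ) (n : ℕ) (hn : n ≠ 0) (y : ℝ) (hy : 1 ≤ y) :
    ∏ p ∈ n.primeFactors, (1 - (p : ℝ) ^ (-σ))⁻¹ ≤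
      Real.exp ((1 - (2 : ℝ) ^ (-σ))⁻¹ * (y + Real.log n / Real.log 2 * y ^ (-σ))) := by
  classical
  have h2lt : (2 : ℝ) ^ (-σ) < 1 := Real.rpow_lt_one_of_one_lt_of_neg (by norm_num) (by linarith)
  set B : ℝ := (1 - (2 : ℝ) ^ (-σ))⁻¹ with hB
  have hB0 : 0 < B := inv_pos.2 (by linarith)
  have hl2 : 0 < Real.log 2 := Real.log_pos (by norm_num)
  have h1 : ∀ p ∈ n.primeFactors, (1 - (p : ℝ) ^ (-σ))⁻¹ ≤ Real.exp (B * (p : ℝ) ^ (-σ)) := by
    intro p hp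
    have hpp := Nat.prime_of_mem_primeFactors hp
    have hp2 : (2 : ℝ) ≤ p := by exact_mod_cast hpp.two_le
    set t : ℝ := (p : ℝ) ^ (-σ) with ht
    have ht0 : 0 < t := by positivity
    have ht2 : t ≤ (2 : ℝ) ^ (-σ) := Real.rpow_le_rpow_of_nonpos (by norm_num) hp2 (by linarith)
    have ht1 : 0 < 1 - t := by linarith
    have e1 : (1 - t)⁻¹ = t * (1 - t)⁻¹ + 1 := by field_simp; ring
    have e2 : (1 - t)⁻¹ ≤ B := by
      rw [hB]
      exact inv_anti₀ (by linarith) (by linarith)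
    have e3 : t * (1 - t)⁻¹ ≤ B * t := by
      rw [mul_comm B t]
      exact mul_le_mul_of_nonneg_left e2 ht0.le
    calc (1 - t)⁻¹ = t * (1 - t)⁻¹ + 1 := e1
      _ ≤ B * t + 1 := by linarith
      _ ≤ Real.exp (B * t) := Real.add_one_le_exp _
  have h2 : ∏ p ∈ n.primeFactors, (1 - (p : ℝ) ^ (-σ))⁻¹ ≤
      ∏ p ∈ n.primeFactors, Real.exp (B * (p : ℝ) ^ (-σ)) := by
    apply Finset.prod_le_prod
    · intro p hp
      have hpp := Nat.prime_of_mem_primeFactors hp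
      have hp2 : (2 : ℝ) ≤ p := by exact_mod_cast hpp.two_le
      have ht2 : (p : ℝ) ^ (-σ) ≤ (2 : ℝ) ^ (-σ) :=
        Real.rpow_le_rpow_of_nonpos (by norm_num) hp2 (by linarith)
      exact inv_nonneg.2 (by linarith)
    · exact h1
  refine h2.trans ?_
  rw [← Real.exp_sum]
  apply Real.exp_le_exp.2
  rw [← mul_sum]
  apply mul_le_mul_of_nonneg_left _ hB0.le
  -- the sum of p ^ (-σ)
  have h3 : ∀ p ∈ n.primeFactors, (p : ℝ) ^ (-σ) ≤ (if (p : ℝ) ≤ y then 1 else 0) + y ^ (-σ) := by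
    intro p hp
    have hpp := Nat.prime_of_mem_primeFactors hp
    have hp1 : (1 : ℝ) ≤ p := by exact_mod_cast hpp.one_lt.le
    have hy0 : 0 ≤ y ^ (-σ) := by positivity
    split_ifs with h
    · have := Real.rpow_le_one_of_one_le_of_nonpos hp1 (show -σ ≤ 0 by linarith)
      linarith
    · push Not at h
      rw [zero_add]
      exact Real.rpow_le_rpow_of_nonpos (by linarith) h.le (by linarith)
  refine (sum_le_sum h3).trans ?_
  rw [sum_add_distrib, sum_const, nsmul_eq_mul, Finset.sum_boole]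
  have h4 : (#(n.primeFactors.filter (fun p : ℕ => (p : ℝ) ≤ y)) : ℝ) ≤ y := by
    have hsub : n.primeFactors.filter (fun p : ℕ => (p : ℝ) ≤ y) ⊆ Icc 1 ⌊y⌋₊ := by
      intro p hp
      rw [mem_filter] at hp
      rw [mem_Icc]
      exact ⟨(Nat.prime_of_mem_primeFactors hp.1).one_lt.le, Nat.le_floor hp.2⟩
    have := card_le_card hsub
    rw [Nat.card_Icc, Nat.add_sub_cancel] at this
    calc (#(n.primeFactors.filter (fun p : ℕ => (p : ℝ) ≤ y)) : ℝ) ≤ (⌊y⌋₊ : ℝ) := by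
          exact_mod_cast this
      _ ≤ y := Nat.floor_le (by linarith)
  have h5 : (#n.primeFactors : ℝ) ≤ Real.log n / Real.log 2 := by
    rw [le_div_iff₀ hl2]
    exact card_primeFactors_log n hn
  have h6 : 0 ≤ y ^ (-σ) := by positivity
  have h7 := mul_le_mul_of_nonneg_right h5 h6
  linarith

lemma small_div (σ : ℝ) (hσ : 0 < σ) (N n : ℕ) (hn : n ≠ 0) :
    (#(n.divisors.filter (fun d => d ≤ N)) : ℝ) ≤
      (N : ℝ) ^ σ * ∑ d ∈ n.divisors, (d : ℝ) ^ (-σ) := by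
  rw [mul_sum]
  have h1 : (#(n.divisors.filter (fun d => d ≤ N)) : ℝ) =
      ∑ d ∈ n.divisors, if d ≤ N then (1 : ℝ) else 0 := by
    rw [Finset.sum_boole]
  rw [h1]
  apply sum_le_sum
  intro d hd
  have hd0 : 0 < d := Nat.pos_of_mem_divisors hd
  have hd0' : (0 : ℝ) < d := by exact_mod_cast hd0
  split_ifs with h
  · have h2 : (d : ℝ) ^ σ ≤ (N : ℝ) ^ σ :=
      Real.rpow_le_rpow hd0'.le (by exact_mod_cast h) hσ.le
    calc (1 : ℝ) = (d : ℝ) ^ σ * (d : ℝ) ^ (-σ) := by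
          rw [← Real.rpow_add hd0']; norm_num
      _ ≤ _ := by gcongr
  · positivity

lemma cc_leS (E : Finset ℕ) (N r n : ℕ) (hE : E ⊆ Icc 1 N) (hn : n ≠ 0) :
    cc E r n ≤ #(n.divisors.filter (fun d => d ≤ N)) ^ r := by
  classical
  unfold cc
  have h : (Fintype.piFinset (fun _ : Fin r => E)).filter (fun v => ∏ i, v i = n) ⊆
      Fintype.piFinset (fun _ : Fin r => n.divisors.filter (fun d => d ≤ N)) := by
    intro v hv
    rw [mem_filter, Fintype.mem_piFinset] at hv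
    rw [Fintype.mem_piFinset]
    intro i
    rw [mem_filter, Nat.mem_divisors]
    exact ⟨⟨hv.2 ▸ Finset.dvd_prod_of_mem v (mem_univ i), hn⟩, (mem_Icc.1 (hE (hv.1 i))).2⟩
  refine (card_le_card h).trans ?_
  rw [Fintype.card_piFinset]
  simp

lemma ev_pow (a c : ℝ) (ha : a < 1) (hc : 0 < c) : ∀ᶠ l : ℝ in atTop, l ^ a ≤ c * l := by
  filter_upwards [(tendsto_rpow_atTop (show 0 < 1 - a by linarith)).eventually_ge_atTop (1 / c),
    eventually_gt_atTop 0] with l h1 h2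
  have h3 : l ^ a * l ^ (1 - a) = l := by rw [← Real.rpow_add h2]; norm_num
  rw [div_le_iff₀ hc] at h1
  calc l ^ a = l ^ a * 1 := by ring
    _ ≤ l ^ a * (l ^ (1 - a) * c) := by gcongr
    _ = c * (l ^ a * l ^ (1 - a)) := by ring
    _ = c * l := by rw [h3]

/-- the bound for the number of representations, `r` up to a small power of `log N` -/
theorem cc_sup (σ : ℝ) (hσ : 0 < σ) (hσ1 : σ ≤ 1) : ∃ N₁ : ℕ, ∀ N : ℕ, N₁ ≤ N → ∀ r : ℕ,
    (r : ℝ) ≤ (Real.log N) ^ (σ / 4) → ∀ E : Finset ℕ, E ⊆ Icc 1 N → ∀ n ∈ Icc 1 (N ^ r),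
      (cc E r n : ℝ) ≤ (N : ℝ) ^ (2 * σ * r) := by
  have h2lt : (2 : ℝ) ^ (-σ) < 1 := Real.rpow_lt_one_of_one_lt_of_neg (by norm_num) (by linarith)
  set B : ℝ := (1 - (2 : ℝ) ^ (-σ))⁻¹ with hB
  have hB0 : 0 < B := inv_pos.2 (by linarith)
  have hl2 : 0 < Real.log 2 := Real.log_pos (by norm_num)
  -- eventually
  have hev : ∀ᶠ l : ℝ in atTop, B * (l ^ (1 / 2 : ℝ) + 1 / Real.log 2 * l ^ (1 - σ / 4)) ≤
      σ * l ∧ 1 ≤ l := by
    have a1 := ev_pow (1 / 2) (σ / (2 * B)) (by norm_num) (by positivity)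
    have a2 := ev_pow (1 - σ / 4) (σ * Real.log 2 / (2 * B)) (by linarith) (by positivity)
    filter_upwards [a1, a2, eventually_ge_atTop 1] with l a1 a2 a3
    refine ⟨?_, a3⟩
    have l0 : 0 < l := by linarith
    calc B * (l ^ (1 / 2 : ℝ) + 1 / Real.log 2 * l ^ (1 - σ / 4))
        ≤ B * (σ / (2 * B) * l + 1 / Real.log 2 * (σ * Real.log 2 / (2 * B) * l)) := by gcongr
      _ = σ * l := by field_simp; ring
  have hlog : Tendsto (fun N : ℕ => Real.log (N : ℝ)) atTop atTop :=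
    Real.tendsto_log_atTop.comp tendsto_natCast_atTop_atTop
  obtain ⟨N₁, hN₁⟩ := eventually_atTop.1 ((hlog.eventually hev).and (eventually_ge_atTop 2))
  refine ⟨N₁, fun N hN r hr E hE n hn => ?_⟩
  obtain ⟨⟨h1, h2⟩, h3⟩ := hN₁ N hN
  set l : ℝ := Real.log N with hl
  have hl0 : 0 < l := by linarith
  have hN0 : (0 : ℝ) < N := by exact_mod_cast (by omega : 0 < N)
  rw [mem_Icc] at hn
  have hn0 : n ≠ 0 := by omega
  have hy : (1 : ℝ) ≤ l ^ (1 / 2 : ℝ) := Real.one_le_rpow h2 (by norm_num)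
  have hlogn : Real.log n ≤ l ^ (σ / 4) * l := by
    have : Real.log n ≤ Real.log ((N : ℝ) ^ r) :=
      Real.log_le_log (by exact_mod_cast Nat.pos_of_ne_zero hn0) (by exact_mod_cast hn.2)
    rw [Real.log_pow] at this
    refine this.trans ?_
    exact mul_le_mul_of_nonneg_right hr hl0.le
  have hexp : (1 - (2 : ℝ) ^ (-σ))⁻¹ * (l ^ (1 / 2 : ℝ) + Real.log n / Real.log 2 *
      (l ^ (1 / 2 : ℝ)) ^ (-σ)) ≤ σ * l := by
    refine le_trans ?_ h1
    rw [← hB]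
    apply mul_le_mul_of_nonneg_left _ hB0.le
    have e1 : (l ^ (1 / 2 : ℝ)) ^ (-σ) = l ^ (-(σ / 2)) := by
      rw [← Real.rpow_mul hl0.le]; congr 1; ring
    rw [e1]
    have e2 : l ^ (σ / 4) * l * l ^ (-(σ / 2)) = l ^ (1 - σ / 4) := by
      nth_rewrite 2 [← Real.rpow_one l]
      rw [← Real.rpow_add hl0, ← Real.rpow_add hl0]; congr 1; ring
    have e3 : Real.log n / Real.log 2 * l ^ (-(σ / 2)) ≤ 1 / Real.log 2 * l ^ (1 - σ / 4) := by
      calc Real.log n / Real.log 2 * l ^ (-(σ / 2))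
          ≤ (l ^ (σ / 4) * l) / Real.log 2 * l ^ (-(σ / 2)) := by gcongr
        _ = 1 / Real.log 2 * (l ^ (σ / 4) * l * l ^ (-(σ / 2))) := by ring
        _ = _ := by rw [e2]
    linarith
  have hcard : (#(n.divisors.filter (fun d => d ≤ N)) : ℝ) ≤ (N : ℝ) ^ (2 * σ) := by
    refine (small_div σ hσ N n hn0).trans ?_
    have e1 := (sum_div_le σ hσ n hn0).trans (prod_le_exp σ hσ n hn0 _ hy)
    have e2 : Real.exp ((1 - (2 : ℝ) ^ (-σ))⁻¹ * (l ^ (1 / 2 : ℝ) + Real.log n / Real.log 2 *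
      (l ^ (1 / 2 : ℝ)) ^ (-σ))) ≤ Real.exp (σ * l) := Real.exp_le_exp.2 hexp
    have e3 : Real.exp (σ * l) = (N : ℝ) ^ σ := by
      rw [Real.rpow_def_of_pos hN0, mul_comm]
    calc (N : ℝ) ^ σ * ∑ d ∈ n.divisors, (d : ℝ) ^ (-σ) ≤ (N : ℝ) ^ σ * (N : ℝ) ^ σ := by
          rw [e3] at e2
          exact mul_le_mul_of_nonneg_left (e1.trans e2) (by positivity)
      _ = (N : ℝ) ^ (2 * σ) := by rw [← Real.rpow_add hN0]; congr 1; ring
  calc (cc E r n : ℝ) ≤ (#(n.divisors.filter (fun d => d ≤ N)) : ℝ) ^ r := by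
        exact_mod_cast cc_leS E N r n hE hn0
    _ ≤ ((N : ℝ) ^ (2 * σ)) ^ r := pow_le_pow_left₀ (Nat.cast_nonneg _) hcard _
    _ = (N : ℝ) ^ (2 * σ * r) := by rw [← Real.rpow_natCast, ← Real.rpow_mul hN0.le]

end Pool.Agent.H771R4.SE
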