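import Mathlib
import Pool.Agent.H771R4.SE.LS
import Pool.Agent.H771R4.SE.Rankin

set_option autoImplicit false

/-! # The large sieve for a set with at least `N ^ θ` elements, `1 / 2 < θ < 1` -/

namespace Pool.Agent.H771R4.SE

open Finset Filter Topology
open Pool.Agent.H386R2.Artin (PP Good)
open Pool.Agent.H386R2.Artin.T1 (cc prim_of_prime)

/-- the parameters -/
lemma params (θ C : ℝ) (hθ : 1 / 2 < θ) (hC : 1 < C) (hCθ : θ * (1 - θ) < C * (2 * θ - 1)) :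
    ∃ δ : ℝ, 0 < δ ∧ δ < 1 / 2 ∧ 1 / 2 < θ - 3 * δ ∧
      (θ - 3 * δ) * (1 - (θ - 3 * δ)) ≤ C * (2 * (θ - 3 * δ) - 1 - δ) := by
  have hf : 0 < C * (2 * θ - 1) - θ * (1 - θ) := by linarith
  set f : ℝ := C * (2 * θ - 1) - θ * (1 - θ) with hfd
  set a : ℝ := min (1 / 4) ((θ - 1 / 2) / 6) with ha
  have ha0 : 0 < a := lt_min (by norm_num) (by linarith)
  have hM : 0 < 7 * C + 3 * (2 * θ - 1) := by
    have : 0 < 3 * (2 * θ - 1) := by linarith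
    linarith
  refine ⟨min a (f / (7 * C + 3 * (2 * θ - 1))), lt_min ha0 (by positivity), ?_, ?_, ?_⟩
  · have h1 : min a (f / (7 * C + 3 * (2 * θ - 1))) ≤ a := min_le_left _ _
    have h2 : a ≤ 1 / 4 := min_le_left _ _
    linarith
  · have h1 : min a (f / (7 * C + 3 * (2 * θ - 1))) ≤ a := min_le_left _ _
    have h2 : a ≤ (θ - 1 / 2) / 6 := min_le_right _ _
    linarith
  · have h1 : min a (f / (7 * C + 3 * (2 * θ - 1))) ≤ f / (7 * C + 3 * (2 * θ - 1)) :=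
      min_le_right _ _
    set δ := min a (f / (7 * C + 3 * (2 * θ - 1))) with hδ
    rw [le_div_iff₀ hM] at h1
    nlinarith [sq_nonneg δ]

theorem fewBad2 (θ C : ℝ) (hθ : 1 / 2 < θ) (hθ1 : θ < 1) (hC : 1 < C)
    (hCθ : θ * (1 - θ) < C * (2 * θ - 1)) :
    ∃ θ₀ δ c : ℝ, 1 / 2 < θ₀ ∧ θ₀ < θ ∧ 0 < δ ∧ 0 < c ∧ ∃ N₁ : ℕ, ∀ N x : ℕ, N₁ ≤ N →
      (N : ℝ) ^ C ≤ x → Real.log x ≤ (Real.log N) ^ (1 + c) →
      ∀ E : Finset ℕ, E ⊆ Icc 1 N → (N : ℝ) ^ θ₀ ≤ (#E : ℝ) →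
        ∀ S : Finset ℕ, (∀ p ∈ S, p ∈ PP x ∧ ¬ Good E ((#E : ℝ) / Real.log x) p) →
        (#S : ℝ) ≤ 12 * (x : ℝ) ^ (1 - δ) := by
  classical
  obtain ⟨δ, hδ, hδ2, hθ2, hP⟩ := params θ C hθ hC hCθ
  set θ₁ : ℝ := θ - 3 * δ with hθ₁
  have hθ₁0 : 0 < θ₁ := by linarith
  have hθ₁1 : 0 < 1 - θ₁ := by linarith
  obtain ⟨N₂, hN₂⟩ := cc_sup (δ / 2) (by positivity) (by linarith)
  refine ⟨θ - δ, δ, δ / 16, by linarith, by linarith, hδ, by positivity, ?_⟩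
  have hlog : Tendsto (fun N : ℕ => Real.log (N : ℝ)) atTop atTop :=
    Real.tendsto_log_atTop.comp tendsto_natCast_atTop_atTop
  -- eventually: r is small
  have hev1 : ∀ᶠ l : ℝ in atTop, 4 * l ^ (δ / 16) + 1 ≤ l ^ (δ / 2 / 4) := by
    have h1 := (tendsto_rpow_atTop (show 0 < δ / 16 by positivity)).eventually_ge_atTop 5
    filter_upwards [h1, eventually_ge_atTop 1] with l h1 h2
    have h3 : l ^ (δ / 2 / 4) = l ^ (δ / 16) * l ^ (δ / 16) := by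
      rw [← Real.rpow_add (by linarith)]; congr 1; ring
    rw [h3]
    nlinarith
  have hev2 : ∀ᶠ l : ℝ in atTop, 4 * Real.log l ≤ δ * l := by
    have h1 := Real.isLittleO_log_id_atTop.def (show (0 : ℝ) < δ / 4 by positivity)
    filter_upwards [h1, eventually_ge_atTop 1] with l h1 h2
    rw [Real.norm_eq_abs, abs_of_nonneg (Real.log_nonneg h2), id, Real.norm_eq_abs,
      abs_of_pos (by linarith)] at h1
    linarith
  obtain ⟨N₁, hN₁⟩ := eventually_atTop.1 (((hlog.eventually (hev1.and hev2)).and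
    (hlog.eventually_ge_atTop 1)).and (eventually_ge_atTop (max 2 N₂)))
  refine ⟨N₁, fun N x hN hx1 hx2 E hE hEc S hS => ?_⟩
  obtain ⟨⟨⟨v1, v2⟩, v3⟩, v4⟩ := hN₁ N hN
  have hN2 : 2 ≤ N := (le_max_left _ _).trans v4
  have hNN2 : N₂ ≤ N := (le_max_right _ _).trans v4
  have hN0 : (0 : ℝ) < N := by exact_mod_cast (by omega : 0 < N)
  have hN1 : (1 : ℝ) < N := by exact_mod_cast (by omega : 1 < N)
  have hx0 : (0 : ℝ) < x := lt_of_lt_of_le (by positivity) hx1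
  set lN : ℝ := Real.log N with hlN
  set lx : ℝ := Real.log x with hlx
  have hlN0 : 0 < lN := Real.log_pos hN1
  have h1 : C * lN ≤ lx := by
    have := Real.log_le_log (by positivity) hx1
    rwa [Real.log_rpow hN0] at this
  have hlx1 : 1 ≤ lx := by nlinarith
  have hlx0 : 0 < lx := by linarith
  -- r
  set t : ℝ := (1 + δ) * lx / (θ₁ * lN) with ht
  have ht0 : 0 < t := by positivity
  set r : ℕ := ⌈t⌉₊ with hr
  have hr1 : t ≤ r := Nat.le_ceil _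
  have hr2 : (r : ℝ) < t + 1 := Nat.ceil_lt_add_one ht0.le
  have hr0 : (0 : ℝ) ≤ r := Nat.cast_nonneg _
  have htl : t * (θ₁ * lN) = (1 + δ) * lx := by
    rw [ht]; field_simp
  have hsub : 0 ≤ 2 * θ₁ - 1 - δ := by
    by_contra hcon
    push Not at hcon
    have : 0 < θ₁ * (1 - θ₁) := by positivity
    nlinarith
  -- r is at most a small power of log N
  have hrs : (r : ℝ) ≤ lN ^ (δ / 2 / 4) := by
    refine le_trans ?_ v1
    have h2 : t ≤ 4 * lN ^ (δ / 16) := by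
      rw [ht, div_le_iff₀ (by positivity)]
      have e1 : lx ≤ lN ^ (δ / 16) * lN := by
        refine hx2.trans (le_of_eq ?_)
        rw [Real.rpow_add hlN0, Real.rpow_one, mul_comm]
      have e2 : 0 < lN ^ (δ / 16) * lN := by positivity
      have e3 : 4 * lN ^ (δ / 16) * (θ₁ * lN) = 4 * θ₁ * (lN ^ (δ / 16) * lN) := by ring
      rw [e3]
      calc (1 + δ) * lx ≤ 2 * (lN ^ (δ / 16) * lN) := by
            apply mul_le_mul _ e1 hlx0.le (by norm_num)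
            linarith
        _ ≤ 4 * θ₁ * (lN ^ (δ / 16) * lN) := by
            apply mul_le_mul_of_nonneg_right _ e2.le
            linarith
    linarith
  -- the two inequalities between exponents
  have ea : (r : ℝ) * (1 - θ₁) * lN ≤ (1 - δ) * lx := by
    have h3 : (r : ℝ) * (1 - θ₁) * lN ≤ (t + 1) * (1 - θ₁) * lN := by
      apply mul_le_mul_of_nonneg_right _ hlN0.le
      apply mul_le_mul_of_nonneg_right hr2.le hθ₁1.le
    refine h3.trans ?_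
    have h4 : θ₁ * ((t + 1) * (1 - θ₁) * lN) ≤ θ₁ * ((1 - δ) * lx) := by
      have h5 : θ₁ * ((t + 1) * (1 - θ₁) * lN) =
          (1 - θ₁) * ((1 + δ) * lx) + θ₁ * (1 - θ₁) * lN := by
        rw [← htl]; ring
      have h6 : θ₁ * (1 - θ₁) * lN ≤ C * (2 * θ₁ - 1 - δ) * lN :=
        mul_le_mul_of_nonneg_right hP hlN0.le
      have h7 : C * (2 * θ₁ - 1 - δ) * lN ≤ (2 * θ₁ - 1 - δ) * lx := by
        have := mul_le_mul_of_nonneg_left h1 hsub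
        linarith
      rw [h5]
      linarith
    exact le_of_mul_le_mul_left h4 hθ₁0
  have eb : (1 + δ) * lx ≤ (r : ℝ) * θ₁ * lN := by
    have : t * (θ₁ * lN) ≤ r * (θ₁ * lN) := by gcongr
    linarith
  -- the bound for cc
  set K : ℝ := (N : ℝ) ^ (2 * (δ / 2) * r) with hK
  have hK0 : 0 ≤ K := by positivity
  have hcc : ∀ n ∈ Icc 1 (N ^ r), (cc E r n : ℝ) ≤ K := hN₂ N hNN2 r hrs E hE
  have hE0 : (0 : ℝ) < #E := lt_of_lt_of_le (by positivity) hEc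
  have hbad := badCountI E N x r ((#E : ℝ) / lx) K hE (by positivity) hK0 hcc
  have hSb : (#S : ℝ) ≤ (#((PP x).filter (fun p => ¬ Good E ((#E : ℝ) / lx) p)) : ℝ) := by
    have : S ⊆ (PP x).filter (fun p => ¬ Good E ((#E : ℝ) / lx) p) := by
      intro p hp
      rw [mem_filter]
      exact hS p hp
    exact_mod_cast card_le_card this
  set b : ℝ := (#((PP x).filter (fun p => ¬ Good E ((#E : ℝ) / lx) p)) : ℝ) with hb
  have hb0 : 0 ≤ b := Nat.cast_nonneg _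
  -- divide
  have h3 : b * (#E : ℝ) ^ r ≤ 6 * ((N : ℝ) ^ r + (x : ℝ) ^ 2) * K * lx ^ (2 * r) := by
    have e1 : ((#E : ℝ) / lx) ^ (2 * r) = (#E : ℝ) ^ r * (#E : ℝ) ^ r / lx ^ (2 * r) := by
      rw [div_pow]
      congr 1
      rw [two_mul, pow_add]
    rw [e1] at hbad
    have hEr : (0 : ℝ) < (#E : ℝ) ^ r := by positivity
    have hTr : (0 : ℝ) < lx ^ (2 * r) := by positivity
    have h4 : b * ((#E : ℝ) ^ r * (#E : ℝ) ^ r / lx ^ (2 * r)) * (lx ^ (2 * r) / (#E : ℝ) ^ r) ≤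
        6 * ((N : ℝ) ^ r + (x : ℝ) ^ 2) * (K * (#E : ℝ) ^ r) * (lx ^ (2 * r) / (#E : ℝ) ^ r) :=
      mul_le_mul_of_nonneg_right hbad (by positivity)
    have e2 : b * ((#E : ℝ) ^ r * (#E : ℝ) ^ r / lx ^ (2 * r)) * (lx ^ (2 * r) / (#E : ℝ) ^ r) =
        b * (#E : ℝ) ^ r := by field_simp
    have e3 : 6 * ((N : ℝ) ^ r + (x : ℝ) ^ 2) * (K * (#E : ℝ) ^ r) *
        (lx ^ (2 * r) / (#E : ℝ) ^ r) =
        6 * ((N : ℝ) ^ r + (x : ℝ) ^ 2) * K * lx ^ (2 * r) := by field_simp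
    rwa [e2, e3] at h4
  have hTR : lx ^ (2 * r) ≤ (N : ℝ) ^ (δ * r) := by
    have e1 : lx ^ 2 ≤ (N : ℝ) ^ δ := by
      have e2 : Real.log (lx ^ 2) ≤ δ * lN := by
        rw [Real.log_pow]
        have e3 : Real.log lx ≤ 2 * Real.log lN := by
          have := Real.log_le_log hlx0 hx2
          rw [Real.log_rpow hlN0] at this
          have e4 : 0 ≤ Real.log lN := Real.log_nonneg v3
          have e5 : (1 + δ / 16) * Real.log lN ≤ 2 * Real.log lN := by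
            apply mul_le_mul_of_nonneg_right _ e4
            linarith
          linarith
        push_cast
        linarith
      rw [Real.rpow_def_of_pos hN0, ← hlN, mul_comm lN δ]
      rw [← Real.log_le_iff_le_exp (by positivity)]
      exact e2
    calc lx ^ (2 * r) = (lx ^ 2) ^ r := by rw [pow_mul]
      _ ≤ ((N : ℝ) ^ δ) ^ r := pow_le_pow_left₀ (by positivity) e1 _
      _ = (N : ℝ) ^ (δ * r) := by rw [← Real.rpow_natCast, ← Real.rpow_mul hN0.le]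
  -- the power of N
  have hEr : (N : ℝ) ^ ((r : ℝ) * (θ - δ)) ≤ (#E : ℝ) ^ r := by
    have : (N : ℝ) ^ ((r : ℝ) * (θ - δ)) = ((N : ℝ) ^ (θ - δ)) ^ r := by
      rw [← Real.rpow_natCast, ← Real.rpow_mul hN0.le, mul_comm]
    rw [this]
    exact pow_le_pow_left₀ (by positivity) hEc _
  have h5 : b * (N : ℝ) ^ ((r : ℝ) * (θ - δ)) ≤
      6 * ((N : ℝ) ^ r + (x : ℝ) ^ 2) * K * lx ^ (2 * r) :=
    (mul_le_mul_of_nonneg_left hEr hb0).trans h3
  have hpos : (0 : ℝ) < (N : ℝ) ^ ((r : ℝ) * (θ - δ)) := by positivity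
  have h6 : b ≤ 6 * ((N : ℝ) ^ r + (x : ℝ) ^ 2) * K * lx ^ (2 * r) *
      (N : ℝ) ^ (-((r : ℝ) * (θ - δ))) := by
    rw [Real.rpow_neg hN0.le, ← div_eq_mul_inv, le_div_iff₀ hpos]
    exact h5
  have hNexp : ∀ s : ℝ, (N : ℝ) ^ s = Real.exp (s * lN) := fun s => by
    rw [Real.rpow_def_of_pos hN0, mul_comm]
  have hxexp : ∀ s : ℝ, (x : ℝ) ^ s = Real.exp (s * lx) := fun s => by
    rw [Real.rpow_def_of_pos hx0, mul_comm]
  have h7 : ((N : ℝ) ^ r + (x : ℝ) ^ 2) * (N : ℝ) ^ (-((r : ℝ) * θ₁)) ≤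
      2 * (x : ℝ) ^ (1 - δ) := by
    have e2 : (N : ℝ) ^ r * (N : ℝ) ^ (-((r : ℝ) * θ₁)) = (N : ℝ) ^ ((r : ℝ) * (1 - θ₁)) := by
      rw [← Real.rpow_natCast, ← Real.rpow_add hN0]; congr 1; ring
    have e3 : (N : ℝ) ^ ((r : ℝ) * (1 - θ₁)) ≤ (x : ℝ) ^ (1 - δ) := by
      rw [hNexp, hxexp]
      exact Real.exp_le_exp.2 ea
    have e4 : (x : ℝ) ^ 2 * (N : ℝ) ^ (-((r : ℝ) * θ₁)) ≤ (x : ℝ) ^ (1 - δ) := by
      have : (x : ℝ) ^ 2 = (x : ℝ) ^ (2 : ℝ) := by norm_cast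
      rw [this, hNexp, hxexp, hxexp, ← Real.exp_add]
      apply Real.exp_le_exp.2
      linarith
    rw [add_mul, e2]
    linarith
  have h8 : K * (N : ℝ) ^ (δ * r) * (N : ℝ) ^ (-((r : ℝ) * (θ - δ))) =
      (N : ℝ) ^ (-((r : ℝ) * θ₁)) := by
    rw [hK, ← Real.rpow_add hN0, ← Real.rpow_add hN0]
    congr 1
    rw [hθ₁]; ring
  calc (#S : ℝ) ≤ b := hSb
    _ ≤ 6 * ((N : ℝ) ^ r + (x : ℝ) ^ 2) * K * lx ^ (2 * r) *
      (N : ℝ) ^ (-((r : ℝ) * (θ - δ))) := h6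
    _ ≤ 6 * ((N : ℝ) ^ r + (x : ℝ) ^ 2) * K * (N : ℝ) ^ (δ * r) *
      (N : ℝ) ^ (-((r : ℝ) * (θ - δ))) := by gcongr
    _ = 6 * (((N : ℝ) ^ r + (x : ℝ) ^ 2) * (K * (N : ℝ) ^ (δ * r) *
      (N : ℝ) ^ (-((r : ℝ) * (θ - δ))))) := by ring
    _ = 6 * (((N : ℝ) ^ r + (x : ℝ) ^ 2) * (N : ℝ) ^ (-((r : ℝ) * θ₁))) := by rw [h8]
    _ ≤ 6 * (2 * (x : ℝ) ^ (1 - δ)) := by gcongr
    _ = 12 * (x : ℝ) ^ (1 - δ) := by ring

end Pool.Agent.H771R4.SE
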